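import Pool.Agent.Lib.MP_688fd0_co.SQ5.NA.Iface
import Pool.Agent.Lib.MP_688fd0_co.SQ5.H97.FlipG

/-!
Type C2, NEAR-ALL, row FLIPA (on helper97's `FlipG`): windows and flips of a local world.
-/

set_option autoImplicit false

namespace Pool.Agent.Lib.MP_688fd0_co.SQ5.NA

open Pool.Agent.Lib.MP_688fd0_co.OSF Pool.Agent.Lib.MP_688fd0_co.SQ2 Pool.Agent.Lib.MP_688fd0_co.SQ3
open Pool.Agent.Lib.MP_688fd0_co.SQ4 Pool.Agent.Lib.MP_688fd0_co.SQ4.CV Pool.Agent.Lib.MP_688fd0_co.SQ5.N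
open SQ2.V (Puz)
open SQ5.H85 (lamU lamU_mono)
open SQ5.H97

namespace Flip

/-- For fixed `l` the second strands are a permutation of the strands. -/
theorem yN_inj {D : Type} [Group D] (e : ℕ) [NeZero e] (w p : D) (i k : ℕ) (l : Fin k) :
    Function.Injective fun s : Fin e × D => yN e w p i k (s, l) := by
  rintro ⟨c, d⟩ ⟨c', d'⟩ h
  have hc := c.2
  have hc' := c'.2
  have he : (0 : ℤ) < e := by exact_mod_cast NeZero.pos e
  have h0 : stN e w ((c : ℤ) + e * (l : ℤ) - i) (d * w ^ (l : ℕ) * p⁻¹) =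
      stN e w ((c' : ℤ) + e * (l : ℤ) - i) (d' * w ^ (l : ℕ) * p⁻¹) := h
  unfold stN at h0
  rw [Prod.mk.injEq, Fin.mk.injEq] at h0
  obtain ⟨h1, h2⟩ := h0
  have h3 : ((c : ℤ) + e * (l : ℤ) - i) % (e : ℤ) = ((c' : ℤ) + e * (l : ℤ) - i) % (e : ℤ) := by
    have h4 := Int.emod_nonneg ((c : ℤ) + e * (l : ℤ) - i) he.ne'
    have h5 := Int.emod_nonneg ((c' : ℤ) + e * (l : ℤ) - i) he.ne'
    omega
  have h4 : (e : ℤ) ∣ (c : ℤ) - c' := by
    have h5 := (Int.emod_emod_of_dvd _ dvd_rfl : _) ▸ Int.emod_emod_of_dvd ((c : ℤ) - c') (dvd_refl (e : ℤ))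
    have h6 : ((c' : ℤ) + e * (l : ℤ) - i) ≡ ((c : ℤ) + e * (l : ℤ) - i) [ZMOD e] := h3.symm
    have h7 := h6.dvd
    have h8 : (c : ℤ) + e * (l : ℤ) - i - ((c' : ℤ) + e * (l : ℤ) - i) = (c : ℤ) - c' := by ring
    rwa [h8] at h7
  have h5 : (c : ℤ) - c' = 0 := by
    apply Int.eq_zero_of_abs_lt_dvd h4
    rw [abs_lt]
    constructor <;> omega
  have h6 : c = c' := Fin.ext (by omega)
  subst h6
  have h7 := mul_right_cancel (mul_right_cancel (mul_right_cancel h2))
  rw [h7]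

section

variable {Q : Type} [Group Q] [DecidableEq Q] {B : Lb.{0, 0} Q} {a b : B.L} {σ : Type} {t : σ → B.L}
  {eps : Q →* ℤˣ} {D : Subgroup Q} {u : Q} {i : σ → ℕ} {e k : ℕ} {H : HypS B a b t eps D u i e k} [NeZero e]
  [Fintype D] [DecidableEq D] {X : ∀ _ : σ, ClsW H.up (gN D u e) H.inj (2 * k) (RgN e k D)}

omit [DecidableEq Q] [NeZero e] [Fintype D] [DecidableEq D] in
theorem eg (H : HypS B a b t eps D u i e k) (s : Fin e × D) : eps (gN D u e s) = 1 := by
  unfold gN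
  rw [map_mul, map_pow, H.eu, one_pow, one_mul]
  exact H.leD s.2.2

/-- Every rung which meets `A` is over `A`. -/
theorem full {h : ℕ} (hX : IsS H X h) {A : Fin e × D → Prop}
    (hc : (famS X).Clo A fun r => A r.2.1) : ∀ r v, (famS X).puz.On r v → A v → A r.2.1 := by
  intro r v hv hA
  rcases hv with rfl | rfl
  · have h1 : A ((X r.1).x r.2) := hA
    rwa [hX.x] at h1
  · have h1 : A ((X r.1).y r.2) := hA
    rw [hX.y] at h1
    have h2 : ∀ s : Fin e × D, A s → A (yN e H.wD (H.pD r.1) (i r.1) k (s, r.2.2)) := by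
      intro s hs
      have h3 := hc.y ⟨r.1, (s, r.2.2)⟩ hs
      have h4 : A ((X r.1).y (s, r.2.2)) := h3
      rwa [hX.y] at h4
    have h3 := (perm_iff (σ := Equiv.ofBijective _ (Finite.injective_iff_bijective.1
      (yN_inj e H.wD (H.pD r.1) (i r.1) k r.2.2))) (D := A) h2 r.2.1).1
    exact h3 h1

omit [DecidableEq Q] [NeZero e] [Fintype D] [DecidableEq D] in
theorem card_le (H : HypS B a b t eps D u i e k) [Fintype σ] :
    Nat.card (Fin e × D) ≤ e * k ∧ Nat.card (RgA σ e k D) ≤ Fintype.card σ * (e * k ^ 2) := by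
  have h1 : Nat.card D ≤ k := Nat.le_of_dvd H.kpos H.card
  have h2 : Nat.card (Fin e × D) ≤ e * k := by
    rw [Nat.card_prod, Nat.card_fin]
    exact Nat.mul_le_mul_left _ h1
  have := H.fin
  have h3 : Nat.card (RgN e k D) ≤ e * k ^ 2 := by
    rw [Nat.card_prod, Nat.card_fin, pow_two, ← mul_assoc]
    exact Nat.mul_le_mul_right _ h2
  refine ⟨h2, ?_⟩
  rw [Nat.card_sigma, Finset.sum_const, Finset.card_univ, smul_eq_mul]
  exact Nat.mul_le_mul_left _ h3

end

end Flip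

/-- FLIPA. -/
theorem flipA : FlipAS := by
  intro Q _ _ B a b σ _ _ t eps D u i e k H _ _ _ X hX f g l₀ hadj A hdA hc hA hs hK hdeg
  obtain rfl : hdA = fun v => Classical.propDecidable (A v) := Subsingleton.elim _ _
  classical
  have hcard := Flip.card_le H
  have hlev : (famS X).lev f = 0 := hX.lev f.1 f.2
  have hT : FA hc f g l₀ (FS D u e) (gN D u e l₀) (gN D u e ((famS X).puz.oth f l₀))
      (gN D u e ((famS X).puz.oth g l₀)) (hN e k) :=
    { gF := fun v => by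
        unfold FS
        rw [Finset.mem_image]
        constructor
        · rintro ⟨s, _, h⟩; exact ⟨s, h⟩
        · rintro ⟨s, h⟩; exact ⟨s, Finset.mem_univ _, h⟩
      hle := fun r => hX.hle r.1 r.2
      adj := hadj
      hx := rfl
      h₁ := rfl
      h₂ := rfl
      l := hA
      full := Flip.full hX hc
      con := hs
      hyp := hK }
  have hΛ : lamU (Nat.card (Fin e × D)) (Nat.card (RgA σ e k D)) (2 * k) (hN e k) ≤
      lamS (Fintype.card σ) e k := by
    refine (lamU_mono hcard.1 hcard.2 le_rfl).trans ?_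
    unfold lamU lamS
    exact Nat.le_add_right _ _
  refine ⟨?_, ?_⟩
  · have h1 := hT.win hΛ
    rw [hlev] at h1
    exact h1
  intro p hp hbig V ω hu hω hw hsum hno
  have hcσ : 0 < Fintype.card σ := Fintype.card_pos_iff.2 ⟨f.1⟩
  have hbig' : 4 * (Fintype.card σ * (e * k)) < p := by
    have h1 : 4 * (Fintype.card σ * (e * k)) = 4 * Fintype.card σ * e * k := by ring
    rw [h1]; exact hbig
  have he := NeZero.pos e
  have hk := H.kpos
  have hek : 0 < e * k := Nat.mul_pos he hk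
  have hM : 0 < Fintype.card σ * (e * k) := Nat.mul_pos hcσ hek
  have h2 : (2 : ZMod p) ≠ 0 := two_ne hp.out hM hbig'
  have hke : k ≤ e * k := Nat.le_mul_of_pos_left k he
  have hkM : e * k ≤ Fintype.card σ * (e * k) := Nat.le_mul_of_pos_left _ hcσ
  have hσk : Fintype.card σ * k ≤ Fintype.card σ * (e * k) := Nat.mul_le_mul_left _ hke
  have h2k : ((2 * k : ℕ) : ZMod p) ≠ 0 := nat_ne (by omega) (by omega) hbig'
  have h2kσ : ((2 * k * Fintype.card σ : ℕ) : ZMod p) ≠ 0 := by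
    have e1 : 2 * k * Fintype.card σ = 2 * (Fintype.card σ * k) := by ring
    rw [e1]
    have h3 : 0 < Fintype.card σ * k := Nat.mul_pos hcσ hk
    exact nat_ne (by omega) (by omega) hbig'
  have hf : ((Nat.card {s // A s}).factorial : ZMod p) ≠ 0 := by
    refine fact_ne hp.out ?_ hbig'
    have h3 : Nat.card {s // A s} ≤ Nat.card (Fin e × D) := Nat.card_le_card_of_injective _ Subtype.val_injective
    omega
  have hδ : hc.puz.Wt (ZMod p) := SQ2.V.Puz.Wt.of_deg ⟨2 * k * Fintype.card σ, h2kσ, hdeg⟩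
  have hzk : V.chi ((u ^ e) ^ k) = 1 := by rw [map_pow, map_pow, hu, one_pow, one_pow]
  have hez : eps ((u ^ e) ^ k) = 1 := by rw [map_pow, map_pow, H.eu, one_pow, one_pow]
  have hwn : ∀ (n : ℕ) (y : Q), ω ((H.up.U ^ n) y) = ω y := by
    intro n
    induction n with
    | zero => intro y; rfl
    | succ n ih => intro y; rw [H.up.U_pow_succ', hω, ih]
  have hcomp : ∀ s r, A ((X s).x r) ↔ A ((X s).y r) := by
    intro s r
    constructor
    · intro h
      rw [hX.x] at h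
      exact hc.y ⟨s, r⟩ h
    · intro h
      rw [hX.x]
      exact Flip.full hX hc ⟨s, r⟩ ((X s).y r) (Or.inr rfl) h
  have hN : ∀ υ υ' : ZMod p, ∀ (Y Y' : TW B) (n : ℕ), n ≤ lamS (Fintype.card σ) e k →
      FWin H.up (2 * k) (FS D u e) ((famS X).lev f) (gN D u e l₀) (gN D u e ((famS X).puz.oth f l₀))
        (gN D u e ((famS X).puz.oth g l₀)) Y n →
      Ver H.up Y Y' n ((H.up.U ^ (famS X).lev f) (gN D u e ((famS X).puz.oth g l₀))) →
      dvolE (evA V eps υ υ') ω Y Y' = 0 := by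
    intro υ υ' Y Y' n hn h3 h4
    rw [dvolE_evA V eps υ υ' ω h4]
    rw [hlev] at h3 h4
    exact hno Y Y' n hn h3 h4
  constructor
  · intro υ υ' o ho
    have hvol := fun s => hX.vol s (evA V eps υ υ') o (evA_inv V eps υ υ' hzk hez) ho
    obtain ⟨Φ, hΦ⟩ := hT.potA (o := o)
      (cu := fun r => (evA V eps υ υ').e (gN D u e r.2.1 * (B.q a * (B.q b)⁻¹) ^ (r.2.2 : ℕ)) (t r.1) +
        drN (i r.1) r.2.1 o) hδ hf h2 (evA_inv V eps υ υ' hzk hez) ho (fun r => (hvol r.1).1.cup r.2)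
      (fun r => (hvol r.1).1.cap r.2)
      (fun r hr s hs => (hvol r.1).2 A (hcomp r.1) r.2 (by rw [hX.x]; exact hr) s hs) (fun s => hwn _ _) hw hsum hΛ
      (hN υ υ')
    refine ⟨Φ, fun r hr => ?_⟩
    have h3 := hΦ r hr
    have h4 : (famS X).y r = yA e H.wD H.pD i k r := hX.y r.1 r.2
    have h5 : (famS X).x r = r.2.1 := hX.x r.1 r.2
    rw [h4, h5] at h3
    exact h3
  · intro hchi hnu r hr
    obtain ⟨u', hu1, _, hu3⟩ := exists_drift V H.ea H.eb 0 hchi h2
    have h3 := hT.potB hδ hf h2 h2k (evA_inv V eps 0 u' hzk hez) hu3 (fun s => hwn _ _) hw hsum hΛ (hN 0 u') r hr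
    have h4 : (famS X).y r = yA e H.wD H.pD i k r := hX.y r.1 r.2
    have h5 : (famS X).x r = r.2.1 := hX.x r.1 r.2
    rw [h4, h5] at h3
    have h6 : ∀ s : Fin e × D, (evA V eps 0 u').wt H.up ((famS X).g s) =
        V.chi (gN D u e s) * (nuW V a b / 2) := fun s => hu1 _ (Flip.eg H s)
    rw [h6, h6] at h3
    exact mul_right_cancel₀ (div_ne_zero hnu h2) h3

end Pool.Agent.Lib.MP_688fd0_co.SQ5.NA
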