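import Pool.Agent.Lib.MP_688fd0_co.SQ4.E.FlipR

/-!
Type C2, near triples: windows and flips of one family of base windows (general form of `SQ4/E/FlipP.lean` without the
hypotheses of type C1).
-/

set_option autoImplicit false

namespace Pool.Agent.Lib.MP_688fd0_co.SQ5.H85

open Pool.Agent.Lib.MP_688fd0_co.OSF Pool.Agent.Lib.MP_688fd0_co.SQ2 Pool.Agent.Lib.MP_688fd0_co.SQ3
open Pool.Agent.Lib.MP_688fd0_co.SQ4 Pool.Agent.Lib.MP_688fd0_co.SQ4.CV
open SQ2.V (Puz Sub)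
open SQ2.V.Puz (St)
open SQ3.Real
open SQ3.V (Back flipAK flipBK)

section

variable {S R : Type} [Fintype S] [DecidableEq S] [Fintype R] {Q : Type} [Group Q] [DecidableEq Q] {B : Lb.{0, 0} Q}
  {U : Up B} {ζ : Q}

/-- The conditions on the puzzle of a path with centre `x` and leaves `s₁`, `s₂`. -/
structure FOk (T : FamW S R U ζ) (f g : R) (l₀ : S) (F : Finset Q) (x s₁ s₂ : Q) (h : ℕ) : Prop where
  gF : ∀ v, v ∈ F ↔ ∃ s, T.g s = v
  hle : ∀ r, T.real.H r ≤ h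
  adj : T.puz.Adj g f l₀
  hx : T.g l₀ = x
  h₁ : T.g (T.puz.oth f l₀) = s₁
  h₂ : T.g (T.puz.oth g l₀) = s₂
  ret : T.puz.RetK fun _ => True

/-- No two versions of a flat window of height at most `Λ` have different volumes. -/
def NoFlU (U : Up B) (e : ℕ) (F : Finset Q) (t₀ : ℕ) (x s₁ s₂ : Q) (Λ : ℕ) {K : Type} [CommRing K]
    (V : Vd B K) (w : Q → K) : Prop :=
  ∀ (X X' : TW B) (n : ℕ), n ≤ Λ → FWin U e F t₀ x s₁ s₂ X n →
    Ver U X X' n ((U.U ^ t₀) s₂) → dvolw V w X X' = 0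

/-- The bound for the windows and the flips (`σ` strands, `r` rungs). -/
def lamU (σ r e h : ℕ) : ℕ := 6 * ((r + 1) * (σ + 1) ^ σ + 1) * (e + h)

variable {T : FamW S R U ζ} {f g : R} {l₀ : S} {F : Finset Q} {x s₁ s₂ : Q} {h : ℕ}

theorem FOk.back (hT : FOk T f g l₀ F x s₁ s₂ h) : Back T.puz f g l₀ := Back.of_ret hT.ret trivial hT.adj

/-- The base window. -/
theorem FOk.base (hT : FOk T f g l₀ F x s₁ s₂ h) : ∃ (E : TW B) (n : ℕ), EWr T.real f g l₀ E n ∧
    n ≤ (NW S R + 2) * (T.e + h) :=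
  real0 _ _ T.puz Q B U T.real ζ f g l₀ h T.per hT.hle hT.adj hT.back.stb

theorem FOk.frS (hT : FOk T f g l₀ F x s₁ s₂ h) (n : ℕ) : frS U T.g T.inj n = im (U.U ^ n) F := by
  ext y
  rw [mem_frS, mem_im]
  constructor
  · rintro ⟨s, rfl⟩
    rw [hT.gF]
    exact ⟨s, by simp⟩
  · intro h
    obtain ⟨s, hs⟩ := (hT.gF _).1 h
    exact ⟨s, by rw [hs]; simp⟩

theorem FOk.fwin (hT : FOk T f g l₀ F x s₁ s₂ h) {X : TW B} {n : ℕ} (hE : EWr T.real f g l₀ X n) :
    FWin U T.e F (T.lev f) x s₁ s₂ X n where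
  L₀ := hE.L₀.trans (hT.frS _)
  u₁ := by rw [hE.u₁, ← hT.hx]; rfl
  u₀ := by rw [hE.u₀, ← hT.h₁]; rfl
  flat := by
    have h1 := hE.flat
    have h2 : T.real.vt (T.puz.oth g l₀) (T.real.lev f) = (U.U ^ T.lev f) s₂ := by
      rw [← hT.h₂]; rfl
    rwa [h2] at h1
  dvd := hE.dvd

theorem bnd {n n₀ : ℕ} (h₀ : n₀ ≤ (NW S R + 2) * (T.e + h)) (hn : n ≤ n₀ + (2 * NW S R + 4) * (T.e + h)) :
    n ≤ lamU (Nat.card S) (Nat.card R) T.e h := by
  have h3 : NW S R = 2 * (Nat.card R * Nat.card S ^ Nat.card S) + 2 := rfl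
  have h4 : Nat.card R * Nat.card S ^ Nat.card S + 1 ≤ (Nat.card R + 1) * (Nat.card S + 1) ^ Nat.card S := by
    have h5 : Nat.card S ^ Nat.card S ≤ (Nat.card S + 1) ^ Nat.card S := Nat.pow_le_pow_left (Nat.le_succ _) _
    have h6 := Nat.mul_le_mul_left (Nat.card R) h5
    have h7 : 0 < (Nat.card S + 1) ^ Nat.card S := Nat.pow_pos (Nat.succ_pos _)
    rw [Nat.add_mul, one_mul]
    omega
  have h5 : n ≤ (3 * NW S R + 6) * (T.e + h) := by
    refine hn.trans ?_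
    have e1 : (3 * NW S R + 6) * (T.e + h) = (NW S R + 2) * (T.e + h) + (2 * NW S R + 4) * (T.e + h) := by ring
    rw [e1]
    exact Nat.add_le_add_right h₀ _
  refine h5.trans ?_
  unfold lamU
  have h6 : 3 * NW S R + 6 ≤ 6 * ((Nat.card R + 1) * (Nat.card S + 1) ^ Nat.card S + 1) := by omega
  exact Nat.mul_le_mul_right _ h6

theorem lamU_mono {σ σ' r r' e h h' : ℕ} (hσ : σ ≤ σ') (hr : r ≤ r') (hh : h ≤ h') :
    lamU σ r e h ≤ lamU σ' r' e h' := by
  unfold lamU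
  have h1 : (σ + 1) ^ σ ≤ (σ' + 1) ^ σ' :=
    (Nat.pow_le_pow_left (by omega) _).trans (Nat.pow_le_pow_right (by omega) hσ)
  have h2 : (r + 1) * (σ + 1) ^ σ + 1 ≤ (r' + 1) * (σ' + 1) ^ σ' + 1 :=
    Nat.add_le_add_right (Nat.mul_le_mul (by omega) h1) 1
  exact Nat.mul_le_mul (Nat.mul_le_mul_left 6 h2) (by omega)

/-- WIN. -/
theorem FOk.win (hT : FOk T f g l₀ F x s₁ s₂ h) {Λ : ℕ} (hΛ : lamU (Nat.card S) (Nat.card R) T.e h ≤ Λ) :
    ∃ (X : TW B) (n : ℕ), n ≤ Λ ∧ FWin U T.e F (T.lev f) x s₁ s₂ X n := by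
  obtain ⟨E, n, hE, hn⟩ := hT.base
  exact ⟨E, n, (bnd hn (Nat.le_add_right _ _)).trans hΛ, hT.fwin hE⟩

/-- The start: the tokens are at home; the sum of all weights is not `0`. -/
theorem FOk.strt (hT : FOk T f g l₀ F x s₁ s₂ h) {K : Type} [Field K] {w : Q → K} (hw : w x + w s₁ = 0)
    (hsum : ∑ v ∈ F, w v ≠ 0) : Strt T.puz f (fun _ => True) (fun _ => True) (fun s => w (T.g s)) := by
  classical
  refine ⟨T.puz.st₁ f, ⟨[], trivial, rfl⟩, trivial, ?_, ?_, ?_⟩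
  · intro t t' h
    exact Subtype.ext ((T.puz.T f).injective h)
  · intro L
    have hon : T.puz.On (T.puz.tau f) L ↔ T.puz.On f ((T.puz.T f)⁻¹ L) := by
      obtain ⟨h1, h2⟩ | ⟨h1, h2⟩ := T.puz.T_ends f
      · unfold Puz.On
        rw [← h1, ← h2, Equiv.Perm.inv_eq_iff_eq, Equiv.Perm.inv_eq_iff_eq]
      · unfold Puz.On
        rw [← h1, ← h2, Equiv.Perm.inv_eq_iff_eq, Equiv.Perm.inv_eq_iff_eq, or_comm]
    show (∃ t : T.puz.TokOf f, T.puz.T f t = L) ↔ ¬ T.puz.On (T.puz.tau f) L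
    rw [hon]
    constructor
    · rintro ⟨t, rfl⟩
      have : (T.puz.T f)⁻¹ (T.puz.T f (t : S)) = t := (T.puz.T f).symm_apply_apply _
      rw [this]
      exact t.2
    · intro h
      exact ⟨⟨_, h⟩, (T.puz.T f).apply_symm_apply _⟩
  · intro hdec h0
    apply hsum
    have hne : T.puz.oth f l₀ ≠ l₀ := by
      intro h1
      have h2 := T.puz.ne f
      unfold Puz.oth at h1
      split_ifs at h1 with h3
      · exact h2 (h3.symm.trans h1.symm)
      · rcases hT.adj.2.1 with h4 | h4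
        · exact h3 h4
        · exact h2 (h1.trans h4)
    have hon : ∀ v : S, T.puz.On f v ↔ v = l₀ ∨ v = T.puz.oth f l₀ := by
      intro v
      unfold Puz.oth Puz.On
      rcases hT.adj.2.1 with h4 | h4
      · rw [if_pos h4, h4]
      · by_cases h5 : l₀ = T.puz.x f
        · exact absurd (h5.symm.trans h4) (T.puz.ne f)
        · rw [if_neg h5, h4, or_comm]
    have e1 : ∑ v ∈ F, w v = ∑ s : S, w (T.g s) := by
      refine (Finset.sum_bij (fun s _ => T.g s) ?_ ?_ ?_ ?_).symm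
      · intro s _; exact (hT.gF _).2 ⟨s, rfl⟩
      · intro s _ s' _ e; exact T.inj e
      · intro v hv
        obtain ⟨s, hs⟩ := (hT.gF v).1 hv
        exact ⟨s, Finset.mem_univ _, hs⟩
      · intro s _; rfl
    have e2 : ∑ s : S, w (T.g s) = ∑ s : S with T.puz.On f s, w (T.g s) + ∑ s : S with ¬ T.puz.On f s, w (T.g s) :=
      (Finset.sum_filter_add_sum_filter_not _ _ _).symm
    have e3 : ∑ s : S with T.puz.On f s, w (T.g s) = 0 := by
      have h5 : (Finset.univ.filter fun s : S => T.puz.On f s) = {l₀, T.puz.oth f l₀} := by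
        ext v
        simp only [Finset.mem_filter, Finset.mem_univ, true_and, Finset.mem_insert, Finset.mem_singleton]
        exact hon v
      rw [h5, Finset.sum_pair hne.symm, hT.hx, hT.h₁]
      exact hw
    have e4 : ∑ s : S with ¬ T.puz.On f s, w (T.g s) = ∑ t : T.puz.TokOf f, w (T.g (t : S)) := by
      rw [Finset.sum_subtype (Finset.univ.filter fun s : S => ¬ T.puz.On f s) (p := fun s => ¬ T.puz.On f s) (by simp)]
    rw [e1, e2, e3, zero_add, e4]
    refine Eq.trans ?_ h0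
    exact Finset.sum_congr rfl fun t _ => (if_pos trivial).symm

end

end Pool.Agent.Lib.MP_688fd0_co.SQ5.H85
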