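import Pool.Agent.Lib.MP_688fd0_co.SQ5.N.Iface
import Pool.Agent.Lib.MP_688fd0_co.SQ4.H69.Union
import Pool.Agent.Lib.MP_688fd0_co.SQ4.H69.NoCut

/-!
Type C2, near letters: the puzzle of a component of the strands `Fin e × D` with the rungs of any number of middle letters
(`(Z × D) / ⟨(e, w)⟩`, the letter `s` joins `v` and `v p_s⁻¹`). If the group generated by `w` and the `p_s` is not
commutative then all caps are strongly connected, there is no cut strand, every strand has two neighbours.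
-/

set_option autoImplicit false

namespace Pool.Agent.Lib.MP_688fd0_co.SQ5.H85

open Pool.Agent.Lib.MP_688fd0_co.SQ2.V Pool.Agent.Lib.MP_688fd0_co.SQ2.V.Puz
open Pool.Agent.Lib.MP_688fd0_co.SQ4
open Pool.Agent.Lib.MP_688fd0_co.SQ5.N (stN RgN yN)

section str

variable {D : Type} [Group D] {e : ℕ} [NeZero e] {w : D}

theorem epos : 0 < (e : ℤ) := by exact_mod_cast Nat.pos_of_ne_zero (NeZero.ne e)

theorem stN_iff (n n' : ℤ) (d d' : D) :
    stN e w n d = stN e w n' d' ↔ ∃ m : ℤ, n' = n + e * m ∧ d' = d * w ^ m := by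
  have he : (e : ℤ) ≠ 0 := (epos (e := e)).ne'
  unfold stN
  rw [Prod.mk.injEq, Fin.mk.injEq]
  constructor
  · rintro ⟨h1, h2⟩
    have a1 := Int.emod_nonneg n he
    have a2 := Int.emod_nonneg n' he
    have h3 : n % (e : ℤ) = n' % (e : ℤ) := by omega
    refine ⟨n' / e - n / e, ?_, ?_⟩
    · have b1 := Int.emod_add_mul_ediv n e
      have b2 := Int.emod_add_mul_ediv n' e
      rw [mul_sub]
      linarith
    · have h4 : d' = d * w ^ (-(n / (e : ℤ))) * w ^ (n' / (e : ℤ)) := by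
        rw [h2, mul_assoc, ← zpow_add, neg_add_cancel, zpow_zero, mul_one]
      rw [h4, mul_assoc, ← zpow_add]
      congr 2
      ring
  · rintro ⟨m, rfl, rfl⟩
    refine ⟨?_, ?_⟩
    · rw [Int.add_mul_emod_self_left]
    · rw [Int.add_mul_ediv_left _ _ he, mul_assoc, ← zpow_add]
      congr 2
      ring

theorem stN_self (v : Fin e × D) : stN e w v.1 v.2 = v := by
  have h0 : ((v.1 : ℕ) : ℤ) < e := by exact_mod_cast v.1.2
  have h1 : ((v.1 : ℕ) : ℤ) / e = 0 := Int.ediv_eq_zero_of_lt (by positivity) h0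
  have h2 : ((v.1 : ℕ) : ℤ) % e = (v.1 : ℕ) := Int.emod_eq_of_lt (by positivity) h0
  refine Prod.ext (Fin.ext ?_) ?_
  · show (((v.1 : ℕ) : ℤ) % (e : ℤ)).toNat = (v.1 : ℕ)
    rw [h2, Int.toNat_natCast]
  · show v.2 * w ^ (-(((v.1 : ℕ) : ℤ) / (e : ℤ))) = v.2
    rw [h1, neg_zero, zpow_zero, mul_one]

/-- Representatives of a strand. -/
theorem rep_of {v : Fin e × D} {n : ℤ} {d : D} (h : stN e w n d = v) :
    ∃ m : ℤ, n = (v.1 : ℕ) + e * m ∧ d = v.2 * w ^ m := by
  rw [← stN_self (w := w) v, eq_comm, stN_iff] at h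
  exact h

/-- The translation by `(n, g)`. -/
def act (e : ℕ) [NeZero e] (w : D) (n : ℤ) (g : D) : Equiv.Perm (Fin e × D) where
  toFun := fun v => stN e w (n + (v.1 : ℕ)) (g * v.2)
  invFun := fun v => stN e w (-n + (v.1 : ℕ)) (g⁻¹ * v.2)
  left_inv := fun v => by
    obtain ⟨m, h1, h2⟩ := rep_of (w := w) (v := stN e w (n + (v.1 : ℕ)) (g * v.2)) rfl
    refine Eq.trans ?_ (stN_self (w := w) v)
    show stN e w (-n + ((stN e w (n + (v.1 : ℕ)) (g * v.2)).1 : ℕ)) (g⁻¹ * (stN e w (n + (v.1 : ℕ)) (g * v.2)).2) = _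
    rw [stN_iff]
    refine ⟨m, ?_, ?_⟩
    · linarith
    · rw [mul_assoc, ← h2, inv_mul_cancel_left]
  right_inv := fun v => by
    obtain ⟨m, h1, h2⟩ := rep_of (w := w) (v := stN e w (-n + (v.1 : ℕ)) (g⁻¹ * v.2)) rfl
    refine Eq.trans ?_ (stN_self (w := w) v)
    show stN e w (n + ((stN e w (-n + (v.1 : ℕ)) (g⁻¹ * v.2)).1 : ℕ)) (g * (stN e w (-n + (v.1 : ℕ)) (g⁻¹ * v.2)).2) = _
    rw [stN_iff]
    refine ⟨m, ?_, ?_⟩
    · linarith
    · rw [mul_assoc, ← h2, mul_inv_cancel_left]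

theorem act_st (n n' : ℤ) (g d : D) : act e w n g (stN e w n' d) = stN e w (n + n') (g * d) := by
  obtain ⟨m, h1, h2⟩ := rep_of (w := w) (v := stN e w n' d) rfl
  show stN e w (n + ((stN e w n' d).1 : ℕ)) (g * (stN e w n' d).2) = _
  rw [stN_iff]
  refine ⟨m, ?_, ?_⟩
  · linarith
  · rw [mul_assoc, ← h2]

theorem act_ne {n : ℤ} (h : ¬ (e : ℤ) ∣ n) (g : D) (v : Fin e × D) : act e w n g v ≠ v := by
  intro h1
  obtain ⟨m, h2, _⟩ := rep_of (w := w) (n := n + (v.1 : ℕ)) (d := g * v.2) h1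
  exact h ⟨m, by linarith⟩

/-- `v'` is one step below `v`. -/
def Dn (e : ℕ) [NeZero e] (w p : D) (i : ℕ) (v v' : Fin e × D) : Prop :=
  ∃ (n : ℤ) (d : D), stN e w n d = v ∧ stN e w (n - i) (d * p⁻¹) = v'

variable {p : D} {i : ℕ}

theorem Dn.act {v v' : Fin e × D} (h : Dn e w p i v v') (n : ℤ) (g : D) :
    Dn e w p i (act e w n g v) (act e w n g v') := by
  obtain ⟨n', d, rfl, rfl⟩ := h
  refine ⟨n + n', g * d, (act_st _ _ _ _).symm, ?_⟩
  rw [act_st]
  congr 1
  · ring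
  · rw [mul_assoc]

theorem act_inv (n : ℤ) (g : D) (v : Fin e × D) : act e w (-n) g⁻¹ (act e w n g v) = v := by
  nth_rewrite 1 [← stN_self (w := w) v]
  rw [act_st, act_st, neg_add_cancel_left, inv_mul_cancel_left, stN_self]

theorem dn_act_iff {v v' : Fin e × D} (n : ℤ) (g : D) :
    Dn e w p i (act e w n g v) (act e w n g v') ↔ Dn e w p i v v' := by
  refine ⟨fun h => ?_, fun h => h.act n g⟩
  have h1 := h.act (-n) g⁻¹
  rwa [act_inv, act_inv] at h1

/-- The two strands are different. -/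
theorem Dn.ne (h0 : 0 < i) (h1 : i < e) {v v' : Fin e × D} (h : Dn e w p i v v') : v ≠ v' := by
  obtain ⟨n, d, rfl, rfl⟩ := h
  intro h2
  rw [stN_iff] at h2
  obtain ⟨m, h3, _⟩ := h2
  have h4 : (e : ℤ) ∣ i := ⟨-m, by linarith⟩
  have h5 := Nat.le_of_dvd h0 (Int.natCast_dvd_natCast.1 h4)
  omega

theorem pow_mod_eq {k : ℕ} (hk : w ^ k = 1) (x : ℕ) : w ^ (x % k) = w ^ x := by
  conv_rhs => rw [← Nat.mod_add_div x k, pow_add, pow_mul, hk, one_pow, mul_one]

theorem zpow_k {k : ℕ} (hk : w ^ k = 1) (t : ℤ) : w ^ ((k : ℤ) * t) = 1 := by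
  rw [zpow_mul, zpow_natCast, hk, one_zpow]

/-- The rungs below a strand. -/
theorem dn_iff {k : ℕ} (hk0 : 0 < k) (hk : w ^ k = 1) {v v' : Fin e × D} :
    Dn e w p i v v' ↔ ∃ l : Fin k, yN e w p i k (v, l) = v' := by
  constructor
  · rintro ⟨n, d, h1, h2⟩
    obtain ⟨m, h3, h4⟩ := rep_of h1
    have hk' : (0 : ℤ) < k := by exact_mod_cast hk0
    have h5 := Int.emod_nonneg m hk'.ne'
    have h6 := Int.emod_lt_of_pos m hk'
    refine ⟨⟨(m % (k : ℤ)).toNat, by omega⟩, ?_⟩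
    rw [← h2]
    show stN e w (((v.1 : ℕ) : ℤ) + e * (((m % (k : ℤ)).toNat : ℕ) : ℤ) - i)
      (v.2 * w ^ ((m % (k : ℤ)).toNat : ℕ) * p⁻¹) = _
    have h7 := Int.emod_add_mul_ediv m k
    rw [stN_iff]
    refine ⟨k * (m / k), ?_, ?_⟩
    · rw [Int.toNat_of_nonneg h5, h3]
      have h8 : (e : ℤ) * m = e * (m % k) + e * (k * (m / k)) := by rw [← mul_add, h7]
      linarith
    · rw [zpow_k hk, mul_one, h4, ← zpow_natCast, Int.toNat_of_nonneg h5]
      congr 2
      conv_lhs => rw [← h7, zpow_add, zpow_k hk, mul_one]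
  · rintro ⟨l, rfl⟩
    refine ⟨(v.1 : ℕ) + e * (l : ℕ), v.2 * w ^ (l : ℕ), ?_, rfl⟩
    nth_rewrite 3 [← stN_self (w := w) v]
    rw [eq_comm, stN_iff]
    exact ⟨(l : ℕ), rfl, by rw [zpow_natCast]⟩

/-! ### Parallel rungs -/

section par

variable {k : ℕ}

/-- The rungs from `v` down to `u`. -/
def cnt (e : ℕ) [NeZero e] (w p : D) (i k : ℕ) [DecidableEq D] (v u : Fin e × D) : Finset (Fin k) :=
  Finset.univ.filter fun l => yN e w p i k (v, l) = u

variable [DecidableEq D]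

theorem mem_cnt {v u : Fin e × D} {l : Fin k} : l ∈ cnt e w p i k v u ↔ yN e w p i k (v, l) = u := by
  simp [cnt]

theorem cnt_dn (hk0 : 0 < k) (hk : w ^ k = 1) {v u : Fin e × D} (h : (cnt e w p i k v u).Nonempty) :
    Dn e w p i v u := by
  obtain ⟨l, hl⟩ := h
  exact (dn_iff hk0 hk).2 ⟨l, mem_cnt.1 hl⟩

/-- Two parallel rungs. -/
theorem com_of_two {v u : Fin e × D} {l l' : Fin k} (h : l ∈ cnt e w p i k v u) (h' : l' ∈ cnt e w p i k v u) :
    Commute (w ^ (((l' : ℕ) : ℤ) - (l : ℕ))) p := by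
  rw [mem_cnt] at h h'
  have h1 : stN e w (((v.1 : ℕ) : ℤ) + e * ((l : ℕ) : ℤ) - i) (v.2 * w ^ (l : ℕ) * p⁻¹) =
      stN e w (((v.1 : ℕ) : ℤ) + e * ((l' : ℕ) : ℤ) - i) (v.2 * w ^ (l' : ℕ) * p⁻¹) := h.trans h'.symm
  rw [stN_iff] at h1
  obtain ⟨m, h2, h3⟩ := h1
  have h4 : (e : ℤ) * (((l' : ℕ) : ℤ) - (l : ℕ)) = e * m := by rw [mul_sub]; linarith
  have h5 : ((l' : ℕ) : ℤ) - (l : ℕ) = m := mul_left_cancel₀ (epos (e := e)).ne' h4
  rw [h5]
  have h6 : w ^ m * p⁻¹ = p⁻¹ * w ^ m := by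
    have h7 : (v.2 * w ^ (l : ℕ)) * (w ^ m * p⁻¹) = (v.2 * w ^ (l : ℕ)) * (p⁻¹ * w ^ m) := by
      rw [← mul_assoc, ← mul_assoc, ← h3, mul_assoc v.2, ← zpow_natCast, ← zpow_add, ← h5]
      have h8 : ((l : ℕ) : ℤ) + (((l' : ℕ) : ℤ) - (l : ℕ)) = (l' : ℕ) := by ring
      rw [h8, zpow_natCast]
    exact mul_left_cancel h7
  have h7 : Commute (w ^ m) p⁻¹ := h6
  exact (Commute.inv_right_iff).1 h7

variable [NeZero k]

/-- Cyclic shift. -/
def sft (j : ℕ) (l : Fin k) : Fin k := ⟨((l : ℕ) + j) % k, Nat.mod_lt _ (Nat.pos_of_ne_zero (NeZero.ne k))⟩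

theorem sft_inj (j : ℕ) : Function.Injective (sft (k := k) j) := by
  intro l l' h
  have h1 : ((l : ℕ) + j) % k = ((l' : ℕ) + j) % k := congrArg Fin.val h
  have h2 : (l : ℕ) ≡ (l' : ℕ) [MOD k] := Nat.ModEq.add_right_cancel' j h1
  exact Fin.ext (Nat.ModEq.eq_of_lt_of_lt h2 l.2 l'.2)

theorem sft_two (l : Fin k) : sft 1 (sft 1 l) = sft 2 l := by
  refine Fin.ext ?_
  show (((l : ℕ) + 1) % k + 1) % k = ((l : ℕ) + 2) % k
  rw [Nat.mod_add_mod]

omit [DecidableEq D] in
theorem add_pow' (hk : w ^ k = 1) (l : Fin k) (j : ℕ) : w ^ ((sft j l : Fin k) : ℕ) = w ^ ((l : ℕ) + j) :=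
  pow_mod_eq hk _

theorem com_shift (hk : w ^ k = 1) {v u : Fin e × D} {l : Fin k} {j : ℕ} (h : l ∈ cnt e w p i k v u)
    (h' : sft j l ∈ cnt e w p i k v u) : Commute (w ^ j) p := by
  have h1 := com_of_two h h'
  have h2 : w ^ (((sft j l : Fin k) : ℕ) - ((l : ℕ) : ℤ)) = w ^ j := by
    rw [zpow_sub, zpow_natCast, add_pow' hk, zpow_natCast, add_comm (l : ℕ), pow_add, mul_inv_cancel_right]
  rwa [h2] at h1

theorem dis_shift (hk : w ^ k = 1) (hn : p * w ≠ w * p) (v u : Fin e × D) :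
    Disjoint (cnt e w p i k v u) ((cnt e w p i k v u).map ⟨sft 1, sft_inj 1⟩) := by
  rw [Finset.disjoint_left]
  intro l hl hl'
  rw [Finset.mem_map] at hl'
  obtain ⟨l', h1, h2⟩ := hl'
  have h3 := com_shift hk h1 (j := 1) (by rw [← h2] at hl; exact hl)
  rw [pow_one] at h3
  exact hn h3.symm.eq

theorem half_le (hk : w ^ k = 1) (hn : p * w ≠ w * p) (v u : Fin e × D) : 2 * (cnt e w p i k v u).card ≤ k := by
  classical
  have h2 := Finset.card_union_of_disjoint (dis_shift (i := i) hk hn v u)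
  rw [Finset.card_map] at h2
  have h3 : ((cnt e w p i k v u) ∪ ((cnt e w p i k v u).map ⟨sft 1, sft_inj 1⟩)).card ≤ k := by
    refine (Finset.card_le_univ _).trans ?_
    rw [Fintype.card_fin]
  omega

theorem half_eq (hk : w ^ k = 1) (hn : p * w ≠ w * p) {v u : Fin e × D} (h : 2 * (cnt e w p i k v u).card = k) :
    Commute (w ^ 2) p := by
  classical
  have hk0 : 0 < k := Nat.pos_of_ne_zero (NeZero.ne k)
  have hne : (cnt e w p i k v u).Nonempty := by
    rw [← Finset.card_pos]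
    omega
  obtain ⟨l, hl⟩ := hne
  have h2 := Finset.card_union_of_disjoint (dis_shift (i := i) hk hn v u)
  rw [Finset.card_map] at h2
  have h3 : ((cnt e w p i k v u) ∪ ((cnt e w p i k v u).map ⟨sft 1, sft_inj 1⟩)) = Finset.univ := by
    rw [← Finset.card_eq_iff_eq_univ, Fintype.card_fin]
    omega
  have h4 : sft 2 l ∈ ((cnt e w p i k v u) ∪ ((cnt e w p i k v u).map ⟨sft 1, sft_inj 1⟩)) := by
    rw [h3]; exact Finset.mem_univ _
  rw [Finset.mem_union] at h4
  rcases h4 with h4 | h4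
  · exact com_shift hk hl h4
  · exfalso
    rw [Finset.mem_map] at h4
    obtain ⟨l', h5, h6⟩ := h4
    rw [← sft_two] at h6
    have h7 : l' = sft 1 l := sft_inj 1 h6
    rw [h7] at h5
    have h6 := com_shift hk hl h5
    rw [pow_one] at h6
    exact hn h6.symm.eq

omit [DecidableEq D] [NeZero k] in
theorem not_sq (hn : p * w ≠ w * p) : w ≠ p * p := by
  intro h
  apply hn
  rw [h, mul_assoc]

omit [DecidableEq D] [NeZero k] in
/-- Both below each other. -/
theorem two_dn (h0 : 0 < i) (h1 : i < e) {v u : Fin e × D} (c1 : Dn e w p i v u) (c2 : Dn e w p i u v) :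
    ∃ m : ℤ, p⁻¹ * w ^ m * p⁻¹ * w ^ (1 - m) = 1 ∧ (e : ℤ) = 2 * i := by
  obtain ⟨n, d, rfl, rfl⟩ := c1
  obtain ⟨n', d', h2, h3⟩ := c2
  rw [eq_comm, stN_iff] at h2
  rw [eq_comm, stN_iff] at h3
  obtain ⟨m, rfl, rfl⟩ := h2
  obtain ⟨m', h4, h5⟩ := h3
  have h6 : 2 * (i : ℤ) = e * (m - m') := by rw [mul_sub]; linarith
  have he : (0 : ℤ) < e := epos
  have h7 : m - m' = 1 := by
    have h8 : 0 < (e : ℤ) * (m - m') := by rw [← h6]; positivity
    have h9 : 0 < m - m' := (pos_iff_pos_of_mul_pos h8).1 he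
    have h10 : (e : ℤ) * (m - m') < e * 2 := by
      rw [← h6]
      have : (i : ℤ) < e := by exact_mod_cast h1
      linarith
    have h11 : m - m' < 2 := lt_of_mul_lt_mul_left h10 he.le
    omega
  refine ⟨m, ?_, by rw [h6, h7, mul_one]⟩
  have h8 : d * (p⁻¹ * w ^ m * p⁻¹ * w ^ (1 - m)) = d * 1 := by
    have h9 : m' = m - 1 := by omega
    have h10 : d * (p⁻¹ * w ^ m * p⁻¹) = d * w ^ m' := by
      rw [← h5]; group
    rw [← mul_assoc, h10, h9, mul_assoc, ← zpow_add, mul_one]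
    have : m - 1 + (1 - m) = 0 := by ring
    rw [this, zpow_zero, mul_one]
  exact mul_left_cancel h8

/-- Less than `k` rungs between two strands. -/
theorem no_full (h0 : 0 < i) (h1 : i < e) (hk : w ^ k = 1) (hn : p * w ≠ w * p) (v u : Fin e × D) :
    (cnt e w p i k v u).card + (cnt e w p i k u v).card < k := by
  have hk0 : 0 < k := Nat.pos_of_ne_zero (NeZero.ne k)
  have a1 := half_le hk hn v u (i := i)
  have a2 := half_le hk hn u v (i := i)
  by_contra hcon
  have b1 : 2 * (cnt e w p i k v u).card = k := by omega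
  have b2 : 2 * (cnt e w p i k u v).card = k := by omega
  have hc := half_eq hk hn b1
  have c1 : Dn e w p i v u := cnt_dn hk0 hk (by rw [← Finset.card_pos]; omega)
  have c2 : Dn e w p i u v := cnt_dn hk0 hk (by rw [← Finset.card_pos]; omega)
  obtain ⟨m, h2, _⟩ := two_dn h0 h1 c1 c2
  apply not_sq hn
  have hz : ∀ q : ℤ, Commute (w ^ (2 * q)) p⁻¹ := by
    intro q
    rw [zpow_mul]
    have h3 : Commute ((w ^ (2 : ℤ)) ^ q) p := Commute.zpow_left (by exact_mod_cast hc) q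
    exact h3.inv_right
  rcases Int.even_or_odd' m with ⟨q, hq | hq⟩
  · have h3 : p⁻¹ * w ^ m = w ^ m * p⁻¹ := by rw [hq]; exact (hz q).symm.eq
    have h4 : p⁻¹ * w ^ m * p⁻¹ * w ^ (1 - m) = p⁻¹ * p⁻¹ * w := by
      rw [mul_assoc p⁻¹ (w ^ m), ← h3, ← mul_assoc, mul_assoc (p⁻¹ * p⁻¹), ← zpow_add]
      have : m + (1 - m) = 1 := by ring
      rw [this, zpow_one]
    rw [h4, mul_assoc, inv_mul_eq_one, eq_comm, inv_mul_eq_iff_eq_mul] at h2
    exact h2
  · have h5 : (1 : ℤ) - m = 2 * (-q) := by rw [hq]; ring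
    have h3 : p⁻¹ * w ^ (1 - m) = w ^ (1 - m) * p⁻¹ := by rw [h5]; exact (hz _).symm.eq
    have h4 : p⁻¹ * w ^ m * p⁻¹ * w ^ (1 - m) = p⁻¹ * w * p⁻¹ := by
      rw [mul_assoc, h3, ← mul_assoc, mul_assoc p⁻¹, ← zpow_add]
      have : m + (1 - m) = 1 := by ring
      rw [this, zpow_one]
    rw [h4, mul_inv_eq_one, inv_mul_eq_iff_eq_mul] at h2
    exact h2

/-! A letter that commutes with `w`. -/

/-- The strand below. -/
def lo (e : ℕ) [NeZero e] (w p : D) (i : ℕ) (v : Fin e × D) : Fin e × D := stN e w ((v.1 : ℕ) - i) (v.2 * p⁻¹)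

omit [DecidableEq D] [NeZero k] in
theorem yN_com (hc : p * w = w * p) (v : Fin e × D) (l : Fin k) : yN e w p i k (v, l) = lo e w p i v := by
  show stN e w (((v.1 : ℕ) : ℤ) + e * ((l : ℕ) : ℤ) - i) (v.2 * w ^ (l : ℕ) * p⁻¹) =
    stN e w ((v.1 : ℕ) - i) (v.2 * p⁻¹)
  rw [eq_comm, stN_iff]
  refine ⟨(l : ℕ), by ring, ?_⟩
  have h1 : Commute (w ^ (l : ℕ)) p⁻¹ := (Commute.pow_left (show Commute w p from hc.symm) _).inv_right
  rw [zpow_natCast, mul_assoc, h1.eq, mul_assoc]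

omit [NeZero k] in
theorem cnt_com (hc : p * w = w * p) (v u : Fin e × D) :
    (cnt e w p i k v u).card = if lo e w p i v = u then k else 0 := by
  unfold cnt
  split_ifs with h
  · rw [Finset.filter_true_of_mem fun l _ => by rw [yN_com hc, h], Finset.card_univ, Fintype.card_fin]
  · rw [Finset.filter_false_of_mem fun l _ => by rw [yN_com hc]; exact h, Finset.card_empty]

omit [DecidableEq D] [NeZero k] in
theorem dn_com (hc : p * w = w * p) {v u : Fin e × D} : Dn e w p i v u ↔ lo e w p i v = u := by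
  constructor
  · rintro ⟨n, d, rfl, rfl⟩
    obtain ⟨m, h1, h2⟩ := rep_of (w := w) (v := stN e w n d) rfl
    unfold lo
    rw [stN_iff]
    refine ⟨m, by linarith, ?_⟩
    have h3 : Commute (w ^ m) p⁻¹ := (Commute.zpow_left (show Commute w p from hc.symm) _).inv_right
    rw [mul_assoc, ← h3.eq, ← mul_assoc, ← h2]
  · rintro rfl
    exact ⟨(v.1 : ℕ), v.2, stN_self v, rfl⟩

end par

end str

/-! ### The puzzle -/

/-- The rungs of all middle letters. -/
abbrev RgA (σ : Type) (e k : ℕ) (D : Type) := σ × RgN e k D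

/-- The second strand. -/
def yA {D : Type} [Group D] {σ : Type} (e : ℕ) [NeZero e] (w : D) (p : σ → D) (i : σ → ℕ) (k : ℕ)
    (r : RgA σ e k D) : Fin e × D := yN e w (p r.1) (i r.1) k r.2

/-- Two strands are joined by a rung of some letter. -/
def JnA {D : Type} [Group D] {σ : Type} (e : ℕ) [NeZero e] (w : D) (p : σ → D) (i : σ → ℕ) (k : ℕ)
    (v v' : Fin e × D) : Prop := ∃ s, SQ5.N.JnN e w (p s) (i s) k v v'

/-- The component of `v₀`. -/
def CmpA {D : Type} [Group D] {σ : Type} (e : ℕ) [NeZero e] (w : D) (p : σ → D) (i : σ → ℕ) (k : ℕ)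
    (v₀ : Fin e × D) (A : Fin e × D → Prop) : Prop :=
  ∀ v, A v ↔ Relation.ReflTransGen (JnA e w p i k) v₀ v

/-- The hypothesis on the group: not all strands have only two neighbours. -/
def NonA {D : Type} [Group D] {σ : Type} (e : ℕ) (w : D) (p : σ → D) (i : σ → ℕ) : Prop :=
  (∃ s, p s * w ≠ w * p s) ∨ ∃ s s', (i s ≠ i s' ∨ p s ≠ p s') ∧ (i s + i s' ≠ e ∨ p s * p s' ≠ w)

/-- The puzzle of a set of strands. -/
structure PzA {D : Type} [Group D] [DecidableEq D] {σ : Type} (e : ℕ) [NeZero e] (w : D) (p : σ → D) (i : σ → ℕ)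
    (k : ℕ) (A : Fin e × D → Prop) (J : RgA σ e k D → Prop) (P : Puz {v // A v} {r : RgA σ e k D // J r}) :
    Prop where
  hJ : ∀ r, J r ↔ A r.2.1
  x : ∀ r, (P.x r).1 = r.1.2.1
  y : ∀ r, (P.y r).1 = yA e w p i k r.1
  tau1 : ∀ r, (P.tau r).1.1 = r.1.1
  tau2 : ∀ s (A' : Fin e × D → Prop), (∀ q : RgN e k D, A' q.1 ↔ A' (yN e w (p s) (i s) k q)) →
    ∀ r, r.1.1 = s → (A' r.1.2.1 ↔ A' (P.tau r).1.2.1)

section puz

variable {D : Type} [Group D] [DecidableEq D] {σ : Type} {e : ℕ} [NeZero e] {w : D}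
  {p : σ → D} {i : σ → ℕ} {k : ℕ} [NeZero k] {A : Fin e × D → Prop} {J : RgA σ e k D → Prop}
  {P : Puz {v // A v} {r : RgA σ e k D // J r}}

/-- Joined by a rung of the letter `s`. -/
def Js (e : ℕ) [NeZero e] (w p : D) (i : ℕ) (v v' : Fin e × D) : Prop := Dn e w p i v v' ∨ Dn e w p i v' v

omit [DecidableEq D] in
theorem Js.symm {p : D} {i : ℕ} {v v' : Fin e × D} (h : Js e w p i v v') : Js e w p i v' v := Or.symm h

omit [DecidableEq D] in
theorem js_iff (hk : w ^ k = 1) {p : D} {i : ℕ} {v v' : Fin e × D} :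
    SQ5.N.JnN e w p i k v v' ↔ Js e w p i v v' := by
  have hk0 : 0 < k := Nat.pos_of_ne_zero (NeZero.ne k)
  unfold Js
  rw [dn_iff hk0 hk, dn_iff hk0 hk]
  constructor
  · rintro ⟨⟨u, l⟩, ⟨rfl, h⟩ | ⟨rfl, h⟩⟩
    · exact Or.inl ⟨l, h⟩
    · exact Or.inr ⟨l, h⟩
  · rintro (⟨l, h⟩ | ⟨l, h⟩)
    · exact ⟨(v, l), Or.inl ⟨rfl, h⟩⟩
    · exact ⟨(v', l), Or.inr ⟨rfl, h⟩⟩

omit [DecidableEq D] in
theorem js_rg (hk : w ^ k = 1) (p : D) (i : ℕ) (q : RgN e k D) : Js e w p i q.1 (yN e w p i k q) :=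
  Or.inl ((dn_iff (Nat.pos_of_ne_zero (NeZero.ne k)) hk).2 ⟨q.2, rfl⟩)

omit [DecidableEq D] in
theorem cmp_js (hk : w ^ k = 1) {v₀ : Fin e × D} (hA : CmpA e w p i k v₀ A) {s : σ} {v v' : Fin e × D}
    (h : Js e w (p s) (i s) v v') (hv : A v) : A v' := by
  rw [hA] at hv ⊢
  exact hv.tail ⟨s, (js_iff hk).2 h⟩

omit [DecidableEq D] in
theorem cmp_js_iff (hk : w ^ k = 1) {v₀ : Fin e × D} (hA : CmpA e w p i k v₀ A) {s : σ} {v v' : Fin e × D}
    (h : Js e w (p s) (i s) v v') : A v ↔ A v' :=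
  ⟨cmp_js hk hA h, cmp_js hk hA h.symm⟩

omit [NeZero k] in
theorem PzA.on_iff (h : PzA e w p i k A J P) {r : {r : RgA σ e k D // J r}} {v : {v // A v}} :
    P.On r v ↔ v.1 = r.1.2.1 ∨ v.1 = yA e w p i k r.1 := by
  unfold Puz.On
  rw [← h.x, ← h.y, Subtype.ext_iff, Subtype.ext_iff]

/-- The class of a strand for the letter `s`. -/
def clA (e : ℕ) [NeZero e] (w p : D) (i : ℕ) (v : Fin e × D) : Set (Fin e × D) :=
  {u | Relation.ReflTransGen (Js e w p i) v u}

omit [DecidableEq D] in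
theorem rtg_symm {p : D} {i : ℕ} {v u : Fin e × D} (h : Relation.ReflTransGen (Js e w p i) v u) :
    Relation.ReflTransGen (Js e w p i) u v := by
  induction h with
  | refl => exact Relation.ReflTransGen.refl
  | tail _ h ih => exact (Relation.ReflTransGen.single h.symm).trans ih

omit [DecidableEq D] in
theorem clA_eq {p : D} {i : ℕ} {v u : Fin e × D} (h : Relation.ReflTransGen (Js e w p i) v u) :
    clA e w p i v = clA e w p i u := by
  ext x
  exact ⟨fun h1 => (rtg_symm h).trans h1, fun h1 => h.trans h1⟩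

omit [DecidableEq D] in
theorem clA_iff {p : D} {i : ℕ} {v u : Fin e × D} :
    clA e w p i v = clA e w p i u ↔ Relation.ReflTransGen (Js e w p i) v u := by
  refine ⟨fun h => ?_, clA_eq⟩
  have h1 : u ∈ clA e w p i u := Relation.ReflTransGen.refl
  rw [← h] at h1
  exact h1

/-- The family of a rung. -/
def fam (e : ℕ) [NeZero e] (w : D) (p : σ → D) (i : σ → ℕ) (k : ℕ) (J : RgA σ e k D → Prop)
    (r : {r : RgA σ e k D // J r}) : σ × Set (Fin e × D) :=
  (r.1.1, clA e w (p r.1.1) (i r.1.1) r.1.2.1)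

theorem PzA.on_cl (hk : w ^ k = 1) (h : PzA e w p i k A J P) {r : {r : RgA σ e k D // J r}} {v : {v // A v}}
    (hv : P.On r v) : fam e w p i k J r = (r.1.1, clA e w (p r.1.1) (i r.1.1) v.1) := by
  unfold fam
  rcases h.on_iff.1 hv with h1 | h1
  · rw [h1]
  · rw [h1]
    refine Prod.ext rfl ?_
    exact clA_eq (Relation.ReflTransGen.single (js_rg hk _ _ r.1.2))

/-- The rungs of the letter `s` at `v`. -/
theorem PzA.deg [Finite D] [Finite σ] (hk : w ^ k = 1)
    {v₀ : Fin e × D} (hA : CmpA e w p i k v₀ A) (h : PzA e w p i k A J P) (s : σ) (v : {v // A v}) :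
    {r : {r : RgA σ e k D // J r} | r.1.1 = s ∧ P.On r v}.ncard = 2 * k := by
  have hk0 : 0 < k := Nat.pos_of_ne_zero (NeZero.ne k)
  have e1 : {r : {r : RgA σ e k D // J r} | r.1.1 = s ∧ P.On r v} =
      {r | r.1.1 = s ∧ v = P.x r} ∪ {r | r.1.1 = s ∧ v = P.y r} := by
    ext r
    simp only [Set.mem_ofPred_eq, Set.mem_union, Puz.On]
    tauto
  have hd : Disjoint {r : {r : RgA σ e k D // J r} | r.1.1 = s ∧ v = P.x r} {r | r.1.1 = s ∧ v = P.y r} := by
    rw [Set.disjoint_left]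
    rintro r ⟨_, h1⟩ ⟨_, h2⟩
    exact P.ne r (h1.symm.trans h2)
  rw [e1, Set.ncard_union_eq hd (Set.toFinite _) (Set.toFinite _)]
  -- the rungs with the first end `v`
  have hx : {r : {r : RgA σ e k D // J r} | r.1.1 = s ∧ v = P.x r}.ncard = k := by
    let f : Fin k → {r : RgA σ e k D // J r} := fun l => ⟨(s, (v.1, l)), (h.hJ _).2 v.2⟩
    have hf : Function.Injective f := fun l l' hl => by
      have h1 := congrArg Subtype.val hl
      exact (Prod.mk.inj (Prod.mk.inj h1).2).2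
    have h1 : {r : {r : RgA σ e k D // J r} | r.1.1 = s ∧ v = P.x r} = Set.range f := by
      ext r
      constructor
      · rintro ⟨h1, h2⟩
        refine ⟨r.1.2.2, Subtype.ext ?_⟩
        have h3 : v.1 = r.1.2.1 := by rw [← h.x, ← h2]
        show (s, (v.1, r.1.2.2)) = r.1
        rw [h3, ← h1]
      · rintro ⟨l, rfl⟩
        refine ⟨rfl, Subtype.ext ?_⟩
        rw [h.x]
    rw [h1, ← Set.image_univ, Set.ncard_image_of_injective _ hf, Set.ncard_univ, Nat.card_eq_fintype_card,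
      Fintype.card_fin]
  -- the rungs with the second end `v`
  have hy : {r : {r : RgA σ e k D // J r} | r.1.1 = s ∧ v = P.y r}.ncard = k := by
    have hinj : ∀ l : Fin k, Function.Injective fun u : Fin e × D => yN e w (p s) (i s) k (u, l) := by
      intro l u u' huu
      have h1 : stN e w (((u.1 : ℕ) : ℤ) + e * ((l : ℕ) : ℤ) - i s) (u.2 * w ^ (l : ℕ) * (p s)⁻¹) =
        stN e w (((u'.1 : ℕ) : ℤ) + e * ((l : ℕ) : ℤ) - i s) (u'.2 * w ^ (l : ℕ) * (p s)⁻¹) := huu
      rw [stN_iff] at h1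
      obtain ⟨m, h2, h3⟩ := h1
      have he : (0 : ℤ) < e := epos
      have h4 : (((u'.1 : ℕ) : ℤ)) = (u.1 : ℕ) + e * m := by linarith
      have h5 : m = 0 := by
        have a1 : ((u.1 : ℕ) : ℤ) < e := by exact_mod_cast u.1.2
        have a2 : ((u'.1 : ℕ) : ℤ) < e := by exact_mod_cast u'.1.2
        have a3 : (0 : ℤ) ≤ (u.1 : ℕ) := by positivity
        have a4 : (0 : ℤ) ≤ (u'.1 : ℕ) := by positivity
        have a5 : (e : ℤ) * m < e * 1 := by linarith
        have a6 : (e : ℤ) * (-1) < e * m := by linarith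
        have a7 := lt_of_mul_lt_mul_left a5 he.le
        have a8 := lt_of_mul_lt_mul_left a6 he.le
        omega
      subst h5
      rw [zpow_zero, mul_one] at h3
      refine Prod.ext (Fin.ext ?_) ?_
      · have : (((u'.1 : ℕ) : ℤ)) = (u.1 : ℕ) := by linarith
        exact_mod_cast this.symm
      · exact (mul_right_cancel (mul_right_cancel h3)).symm
    have hsur : ∀ l : Fin k, Function.Surjective fun u : Fin e × D => yN e w (p s) (i s) k (u, l) :=
      fun l => Finite.surjective_of_injective (hinj l)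
    choose g hg using fun l => hsur l v.1
    have hgA : ∀ l, A (g l) := fun l => by
      have h1 := js_rg hk (p s) (i s) (g l, l)
      rw [show yN e w (p s) (i s) k (g l, l) = v.1 from hg l] at h1
      exact (cmp_js_iff hk hA h1).2 v.2
    let f : Fin k → {r : RgA σ e k D // J r} := fun l => ⟨(s, (g l, l)), (h.hJ _).2 (hgA l)⟩
    have hf : Function.Injective f := fun l l' hl => by
      have h1 := congrArg Subtype.val hl
      exact (Prod.mk.inj (Prod.mk.inj h1).2).2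
    have h1 : {r : {r : RgA σ e k D // J r} | r.1.1 = s ∧ v = P.y r} = Set.range f := by
      ext r
      constructor
      · rintro ⟨h1, h2⟩
        refine ⟨r.1.2.2, Subtype.ext ?_⟩
        have h3 : yN e w (p s) (i s) k (r.1.2.1, r.1.2.2) = v.1 := by
          rw [h2, h.y]
          unfold yA
          rw [h1]
        have h4 : g r.1.2.2 = r.1.2.1 := hinj r.1.2.2 ((hg _).trans h3.symm)
        show (s, (g r.1.2.2, r.1.2.2)) = r.1
        rw [h4, ← h1]
      · rintro ⟨l, rfl⟩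
        refine ⟨rfl, Subtype.ext ?_⟩
        rw [h.y]
        exact (hg l).symm
    rw [h1, ← Set.image_univ, Set.ncard_image_of_injective _ hf, Set.ncard_univ, Nat.card_eq_fintype_card,
      Fintype.card_fin]
  rw [hx, hy, two_mul]

/-- The ends of a rung. -/
theorem PzA.ends (h : PzA e w p i k A J P) {r : {r : RgA σ e k D // J r}} {v : {v // A v}} (hv : P.On r v) :
    (v.1 = r.1.2.1 ∧ (P.oth r v).1 = yN e w (p r.1.1) (i r.1.1) k r.1.2) ∨
      ((P.oth r v).1 = r.1.2.1 ∧ v.1 = yN e w (p r.1.1) (i r.1.1) k r.1.2) := by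
  unfold Puz.oth
  rcases hv with h1 | h1
  · left
    rw [if_pos h1, h.y, h1, h.x]
    exact ⟨rfl, rfl⟩
  · right
    have h2 : ¬ v = P.x r := fun h3 => P.ne r (h3.symm.trans h1)
    rw [if_neg h2, h.x, h1, h.y]
    exact ⟨rfl, rfl⟩

theorem PzA.js_oth (hk : w ^ k = 1) (h : PzA e w p i k A J P) {r : {r : RgA σ e k D // J r}} {v : {v // A v}}
    (hv : P.On r v) : Js e w (p r.1.1) (i r.1.1) v.1 (P.oth r v).1 := by
  have h1 := js_rg hk (p r.1.1) (i r.1.1) r.1.2
  rcases h.ends hv with ⟨h2, h3⟩ | ⟨h2, h3⟩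
  · rw [h2, h3]; exact h1
  · rw [h2, h3]; exact h1.symm

/-- Rungs of the letter `s` between two strands. -/
theorem PzA.par_le [Finite D] [Finite σ] (h : PzA e w p i k A J P) (s : σ) (v u : {v // A v}) :
    {r : {r : RgA σ e k D // J r} | r.1.1 = s ∧ P.On r v ∧ P.oth r v = u}.ncard ≤
      (cnt e w (p s) (i s) k v.1 u.1).card + (cnt e w (p s) (i s) k u.1 v.1).card := by
  classical
  let f : Fin k → {r : RgA σ e k D // J r} := fun l => ⟨(s, (v.1, l)), (h.hJ _).2 v.2⟩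
  let g : Fin k → {r : RgA σ e k D // J r} := fun l => ⟨(s, (u.1, l)), (h.hJ _).2 u.2⟩
  have h1 : {r : {r : RgA σ e k D // J r} | r.1.1 = s ∧ P.On r v ∧ P.oth r v = u} ⊆
      (((cnt e w (p s) (i s) k v.1 u.1).image f ∪ (cnt e w (p s) (i s) k u.1 v.1).image g : Finset _) :
        Set {r : RgA σ e k D // J r}) := by
    rintro r ⟨h1, h2, h3⟩
    rw [Finset.coe_union, Set.mem_union, Finset.mem_coe, Finset.mem_coe, Finset.mem_image, Finset.mem_image]
    rcases h.ends h2 with ⟨h4, h5⟩ | ⟨h4, h5⟩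
    · left
      refine ⟨r.1.2.2, ?_, Subtype.ext ?_⟩
      · rw [mem_cnt, h4, ← h3, h5, h1]
      · show (s, (v.1, r.1.2.2)) = r.1
        rw [h4, ← h1]
    · right
      rw [h3] at h4
      refine ⟨r.1.2.2, ?_, Subtype.ext ?_⟩
      · rw [mem_cnt, h4, h5, h1]
      · show (s, (u.1, r.1.2.2)) = r.1
        rw [h4, ← h1]
  have h2 := Set.ncard_le_ncard h1 (Finset.finite_toSet _)
  rw [Set.ncard_coe_finset] at h2
  refine h2.trans ((Finset.card_union_le _ _).trans ?_)
  exact Nat.add_le_add Finset.card_image_le Finset.card_image_le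

omit [DecidableEq D] [NeZero k] in
theorem lo_st {p : D} {i : ℕ} (hc : p * w = w * p) (n : ℤ) (d : D) :
    lo e w p i (stN e w n d) = stN e w (n - i) (d * p⁻¹) := (dn_com hc).1 ⟨n, d, rfl, rfl⟩

omit [DecidableEq D] [NeZero k] in
theorem lo_lo {p : D} {i : ℕ} (hp : p * p = w) (hi : 2 * i = e) (v : Fin e × D) :
    lo e w p i (lo e w p i v) = v := by
  have hc : p * w = w * p := by rw [← hp, mul_assoc]
  conv_lhs => rw [← stN_self (w := w) v]
  rw [lo_st hc, lo_st hc]
  conv_rhs => rw [← stN_self (w := w) v]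
  rw [stN_iff]
  refine ⟨1, ?_, ?_⟩
  · have : (e : ℤ) = 2 * i := by exact_mod_cast hi.symm
    rw [this]; ring
  · rw [zpow_one, ← hp]; group

omit [DecidableEq D] [NeZero k] in
theorem js_com {p : D} {i : ℕ} (hc : p * w = w * p) {v u : Fin e × D} :
    Js e w p i v u ↔ lo e w p i v = u ∨ lo e w p i u = v := by
  unfold Js
  rw [dn_com hc, dn_com hc]

/-- A letter is of one of three kinds. -/
theorem PzA.par [Finite D] [Finite σ] (hi : ∀ s, 0 < i s) (hie : ∀ s, i s < e) (hk : w ^ k = 1)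
    (h : PzA e w p i k A J P) (s : σ) :
    (∀ v u : {v // A v}, {r : {r : RgA σ e k D // J r} | r.1.1 = s ∧ P.On r v ∧ P.oth r v = u}.ncard ≤ k) ∨
      (p s * p s = w ∧ 2 * i s = e) := by
  by_cases hc : p s * w = w * p s
  swap
  · left
    intro v u
    exact (h.par_le s v u).trans (no_full (hi s) (hie s) hk hc v.1 u.1).le
  by_cases hq : p s * p s = w ∧ 2 * i s = e
  · exact Or.inr hq
  left
  intro v u
  refine (h.par_le s v u).trans ?_
  rw [cnt_com hc, cnt_com hc]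
  by_cases h1 : lo e w (p s) (i s) v.1 = u.1
  · by_cases h2 : lo e w (p s) (i s) u.1 = v.1
    · exfalso
      obtain ⟨m, h3, h4⟩ := two_dn (hi s) (hie s) ((dn_com hc).2 h1) ((dn_com hc).2 h2)
      refine hq ⟨?_, by exact_mod_cast h4.symm⟩
      have h5 : Commute (w ^ m) (p s)⁻¹ := (Commute.zpow_left (show Commute w (p s) from hc.symm) _).inv_right
      rw [mul_assoc (p s)⁻¹, h5.eq, ← mul_assoc, mul_assoc ((p s)⁻¹ * (p s)⁻¹), ← zpow_add] at h3
      have h6 : m + (1 - m) = 1 := by ring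
      rw [h6, zpow_one, mul_assoc, inv_mul_eq_one, eq_comm, inv_mul_eq_iff_eq_mul] at h3
      exact h3.symm
    · rw [if_pos h1, if_neg h2]
      omega
  · rw [if_neg h1]
    split_ifs <;> omega

/-- A letter with two strands per class. -/
theorem PzA.ftwo (h : PzA e w p i k A J P) {s : σ} (hs : p s * p s = w ∧ 2 * i s = e)
    (S : Set (Fin e × D)) : FTwo P (fam e w p i k J) (s, S) := by
  intro r r' v hr hr' hv
  have hc : p s * w = w * p s := by rw [← hs.1, mul_assoc]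
  have hl := lo_lo (e := e) hs.1 hs.2
  have h1 : r.1.1 = s := congrArg Prod.fst hr
  have h2 : r'.1.1 = s := congrArg Prod.fst hr'
  have h3 := congrArg Prod.snd (hr.trans hr'.symm)
  have h4 : clA e w (p r.1.1) (i r.1.1) r.1.2.1 = clA e w (p r'.1.1) (i r'.1.1) r'.1.2.1 := h3
  rw [h1, h2, clA_iff] at h4
  have h5 : ∀ u, Relation.ReflTransGen (Js e w (p s) (i s)) r.1.2.1 u →
      u = r.1.2.1 ∨ u = lo e w (p s) (i s) r.1.2.1 := by
    intro u hu
    induction hu with
    | refl => exact Or.inl rfl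
    | tail _ hb ih =>
      rw [js_com hc] at hb
      rcases ih with rfl | rfl
      · rcases hb with hb | hb
        · exact Or.inr hb.symm
        · right
          rw [← hb, hl]
      · rcases hb with hb | hb
        · left
          rw [← hb, hl]
        · left
          rw [← hl r.1.2.1, ← hb, hl]
  have hy : ∀ r : {r : RgA σ e k D // J r}, r.1.1 = s → yN e w (p r.1.1) (i r.1.1) k r.1.2 =
      lo e w (p s) (i s) r.1.2.1 := by
    intro r hr
    rw [hr]
    exact yN_com hc r.1.2.1 r.1.2.2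
  have hyy : (P.x r' = P.x r ∧ P.y r' = P.y r) ∨ (P.x r' = P.y r ∧ P.y r' = P.x r) := by
    rcases h5 _ h4 with h6 | h6
    · left
      refine ⟨Subtype.ext ?_, Subtype.ext ?_⟩
      · rw [h.x, h.x, h6]
      · rw [h.y, h.y]
        unfold yA
        rw [hy r h1, hy r' h2, h6]
    · right
      refine ⟨Subtype.ext ?_, Subtype.ext ?_⟩
      · rw [h.x, h.y]
        unfold yA
        rw [hy r h1, h6]
      · rw [h.x, h.y]
        unfold yA
        rw [hy r' h2, h6, hl]
  unfold Puz.On Puz.oth at *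
  rcases hyy with ⟨h6, h7⟩ | ⟨h6, h7⟩
  · rw [h6, h7]
    exact ⟨hv, rfl⟩
  · rw [h6, h7]
    refine ⟨hv.symm, ?_⟩
    have := P.ne r
    rcases hv with rfl | rfl
    · rw [if_neg this, if_pos rfl]
    · rw [if_pos rfl, if_neg this.symm]

/-- A step of a letter is a rung. -/
theorem PzA.rung (hk : w ^ k = 1) (h : PzA e w p i k A J P) {s : σ} {v u : {v // A v}}
    (hj : Js e w (p s) (i s) v.1 u.1) :
    ∃ r : {r : RgA σ e k D // J r}, r.1.1 = s ∧ P.On r v ∧ P.On r u := by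
  have hk0 : 0 < k := Nat.pos_of_ne_zero (NeZero.ne k)
  rcases hj with hj | hj
  · obtain ⟨l, hl⟩ := (dn_iff hk0 hk).1 hj
    refine ⟨⟨(s, (v.1, l)), (h.hJ _).2 v.2⟩, rfl, ?_, ?_⟩
    · exact h.on_iff.2 (Or.inl rfl)
    · exact h.on_iff.2 (Or.inr hl.symm)
  · obtain ⟨l, hl⟩ := (dn_iff hk0 hk).1 hj
    refine ⟨⟨(s, (u.1, l)), (h.hJ _).2 u.2⟩, rfl, ?_, ?_⟩
    · exact h.on_iff.2 (Or.inr hl.symm)
    · exact h.on_iff.2 (Or.inl rfl)

/-- The union of the families. -/
theorem PzA.fams [Finite D] [Finite σ] (hi : ∀ s, 0 < i s) (hie : ∀ s, i s < e) (hk : w ^ k = 1)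
    {v₀ : Fin e × D} (hA : CmpA e w p i k v₀ A) (h : PzA e w p i k A J P) :
    Fams P (fam e w p i k J) fun _ => k where
  tau := fun r => by
    unfold fam
    have h1 := h.tau1 r
    refine Prod.ext h1 ?_
    show clA e w (p (P.tau r).1.1) (i (P.tau r).1.1) (P.tau r).1.2.1 = clA e w (p r.1.1) (i r.1.1) r.1.2.1
    rw [h1, eq_comm, clA_iff]
    refine (h.tau2 r.1.1 (fun u => Relation.ReflTransGen (Js e w (p r.1.1) (i r.1.1)) r.1.2.1 u) ?_ r rfl).1
      Relation.ReflTransGen.refl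
    intro q
    have h2 := js_rg hk (p r.1.1) (i r.1.1) q
    exact ⟨fun h3 => h3.tail h2, fun h3 => h3.tail h2.symm⟩
  deg := fun I v hv => by
    obtain ⟨r, h1, h2⟩ := hv
    rw [← h.deg hk hA r.1.1 v]
    congr 1
    ext q
    constructor
    · rintro ⟨h3, h4⟩
      have h5 := congrArg Prod.fst (h3.trans h1.symm)
      exact ⟨h5, h4⟩
    · rintro ⟨h3, h4⟩
      refine ⟨?_, h4⟩
      rw [← h1, h.on_cl hk h2, h.on_cl hk h4, h3]
  conn := fun I v u hv hu => by
    obtain ⟨r, h1, h2⟩ := hv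
    obtain ⟨r', h1', h2'⟩ := hu
    have h3 := h1.trans h1'.symm
    rw [h.on_cl hk h2, h.on_cl hk h2'] at h3
    have h4 : r.1.1 = r'.1.1 := (Prod.mk.inj h3).1
    have h5 := (Prod.mk.inj h3).2
    change clA e w (p r.1.1) (i r.1.1) v.1 = clA e w (p r'.1.1) (i r'.1.1) u.1 at h5
    rw [← h4, clA_iff] at h5
    have h6 : I = (r.1.1, clA e w (p r.1.1) (i r.1.1) v.1) := by rw [← h1, h.on_cl hk h2]
    have key : ∀ x, Relation.ReflTransGen (Js e w (p r.1.1) (i r.1.1)) v.1 x → ∃ hx : A x,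
        Relation.ReflTransGen (fun a b => ∃ q, fam e w p i k J q = I ∧ P.On q a ∧ P.On q b) v ⟨x, hx⟩ := by
      intro x hx
      induction hx with
      | refl => exact ⟨v.2, Relation.ReflTransGen.refl⟩
      | @tail b c hb hbc ih =>
        obtain ⟨hb1, ih⟩ := ih
        have hc1 := cmp_js hk hA hbc hb1
        refine ⟨hc1, ih.tail ?_⟩
        obtain ⟨q, q1, q2, q3⟩ := h.rung hk (v := ⟨b, hb1⟩) (u := ⟨c, hc1⟩) hbc
        refine ⟨q, ?_, q2, q3⟩
        rw [h.on_cl hk q2, h6, q1]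
        exact Prod.ext rfl (clA_eq hb).symm
    exact (key u.1 h5).2
  par := fun I => by
    rcases h.par hi hie hk I.1 with h1 | h1
    · left
      intro v u
      refine le_trans (Set.ncard_le_ncard ?_ (Set.toFinite _)) (h1 v u)
      rintro r ⟨h2, h3⟩
      have h4 := congrArg Prod.fst h2
      exact ⟨h4, h3⟩
    · right
      exact h.ftwo h1 I.2

omit [DecidableEq D] [NeZero k] in
theorem lo_eq {s s' : σ} (hi : ∀ s, 0 < i s) (hie : ∀ s, i s < e) {v : Fin e × D}
    (h : lo e w (p s) (i s) v = lo e w (p s') (i s') v) : i s = i s' ∧ p s = p s' := by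
  unfold lo at h
  rw [stN_iff] at h
  obtain ⟨m, h1, h2⟩ := h
  have he : (0 : ℤ) < e := epos
  have a1 : (0 : ℤ) < i s := by exact_mod_cast hi s
  have a2 : (0 : ℤ) < i s' := by exact_mod_cast hi s'
  have a3 : (i s : ℤ) < e := by exact_mod_cast hie s
  have a4 : (i s' : ℤ) < e := by exact_mod_cast hie s'
  have h5 : m = 0 := by
    have a5 : (e : ℤ) * m < e * 1 := by linarith
    have a6 : (e : ℤ) * (-1) < e * m := by linarith
    have a7 := lt_of_mul_lt_mul_left a5 he.le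
    have a8 := lt_of_mul_lt_mul_left a6 he.le
    omega
  subst h5
  rw [zpow_zero, mul_one] at h2
  refine ⟨?_, (inv_injective (mul_left_cancel h2)).symm⟩
  have : (i s : ℤ) = i s' := by linarith
  exact_mod_cast this

omit [DecidableEq D] [NeZero k] in
theorem lo_two {s s' : σ} (hi : ∀ s, 0 < i s) (hie : ∀ s, i s < e) (hc' : p s' * w = w * p s')
    {v : Fin e × D} (h : lo e w (p s') (i s') (lo e w (p s) (i s) v) = v) : i s + i s' = e ∧ p s' * p s = w := by
  have h0 : lo e w (p s') (i s') (lo e w (p s) (i s) v) =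
      stN e w ((v.1 : ℕ) - i s - i s') (v.2 * (p s)⁻¹ * (p s')⁻¹) := lo_st hc' _ _
  rw [h0] at h
  obtain ⟨m, h1, h2⟩ := rep_of h
  have he : (0 : ℤ) < e := epos
  have a1 : (0 : ℤ) < i s := by exact_mod_cast hi s
  have a2 : (0 : ℤ) < i s' := by exact_mod_cast hi s'
  have a3 : (i s : ℤ) < e := by exact_mod_cast hie s
  have a4 : (i s' : ℤ) < e := by exact_mod_cast hie s'
  have h5 : m = -1 := by
    have a5 : (e : ℤ) * m < e * 0 := by linarith
    have a6 : (e : ℤ) * (-2) < e * m := by linarith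
    have a7 := lt_of_mul_lt_mul_left a5 he.le
    have a8 := lt_of_mul_lt_mul_left a6 he.le
    omega
  subst h5
  refine ⟨?_, ?_⟩
  · have : (i s : ℤ) + i s' = e := by linarith
    exact_mod_cast this
  · rw [mul_assoc] at h2
    have h6 := mul_left_cancel h2
    rw [zpow_neg_one, ← mul_inv_rev, inv_inj] at h6
    exact h6

/-- A letter is at every strand. -/
theorem PzA.some (h : PzA e w p i k A J P) (s : σ) (v : {v // A v}) : ∃ r : {r : RgA σ e k D // J r},
    r.1.1 = s ∧ P.On r v :=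
  ⟨⟨(s, (v.1, 0)), (h.hJ _).2 v.2⟩, rfl, h.on_iff.2 (Or.inl rfl)⟩

/-- Not all rungs of a noncommuting letter are parallel. -/
theorem PzA.not_par [Finite D] [Finite σ] (hi : ∀ s, 0 < i s) (hie : ∀ s, i s < e) (hk : w ^ k = 1)
    {v₀ : Fin e × D} (hA : CmpA e w p i k v₀ A) (h : PzA e w p i k A J P) {s : σ} (hs : p s * w ≠ w * p s)
    (v u : {v // A v}) : ¬ ∀ r : {r : RgA σ e k D // J r}, r.1.1 = s → P.On r v → P.oth r v = u := by
  intro hall
  have h1 := h.deg hk hA s v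
  have h2 : {r : {r : RgA σ e k D // J r} | r.1.1 = s ∧ P.On r v} ⊆
      {r : {r : RgA σ e k D // J r} | r.1.1 = s ∧ P.On r v ∧ P.oth r v = u} :=
    fun r hr => ⟨hr.1, hr.2, hall r hr.1 hr.2⟩
  have h3 := Set.ncard_le_ncard h2 (Set.toFinite _)
  have h4 := h.par_le s v u
  have h5 := no_full (hi s) (hie s) hk hs v.1 u.1
  omega

/-- No closed class of mode U. -/
theorem PzA.noMode [Finite D] [Finite σ] (hi : ∀ s, 0 < i s) (hie : ∀ s, i s < e) (hk : w ^ k = 1)
    {v₀ : Fin e × D} (hA : CmpA e w p i k v₀ A) (h : PzA e w p i k A J P) (hN : NonA e w p i)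
    {K : {r : RgA σ e k D // J r} → Prop} {u : {v // A v} → {v // A v}}
    (hM : ModeU P (fam e w p i k J) (fun _ => k) K u) : False := by
  have hk0 : 0 < k := Nat.pos_of_ne_zero (NeZero.ne k)
  have hv₀ : A v₀ := (hA v₀).2 Relation.ReflTransGen.refl
  set v : {v // A v} := ⟨v₀, hv₀⟩ with hv
  by_cases hcase : ∃ s, p s * w ≠ w * p s
  · obtain ⟨s, hs⟩ := hcase
    obtain ⟨r, hr1, hr2⟩ := h.some s v
    have hI : fam e w p i k J r = (s, clA e w (p s) (i s) v.1) := by rw [h.on_cl hk hr2, hr1]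
    have hnt : ¬ FTwo P (fam e w p i k J) (s, clA e w (p s) (i s) v.1) := by
      intro ht
      refine h.not_par hi hie hk hA hs v (P.oth r v) fun r' h1 h2 => ?_
      refine (ht r r' v hI ?_ hr2).2
      rw [h.on_cl hk h2, h1]
    have h1 := hM.half _ v hnt ⟨r, hI, hr2⟩
    have h2 : {r : {r : RgA σ e k D // J r} | fam e w p i k J r = (s, clA e w (p s) (i s) v.1) ∧ P.On r v ∧
        P.oth r v = u v} ⊆ {r | r.1.1 = s ∧ P.On r v ∧ P.oth r v = u v} := by
      rintro q ⟨h3, h4⟩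
      have h5 := congrArg Prod.fst h3
      exact ⟨h5, h4⟩
    have h3 := Set.ncard_le_ncard h2 (Set.toFinite _)
    have h4 := h.par_le s v (u v)
    have h5 := no_full (hi s) (hie s) hk hs v.1 (u v).1
    omega
  push Not at hcase
  rcases hN with ⟨s, hs⟩ | ⟨s, s', h1, h2⟩
  · exact hs (hcase s)
  have key : ∀ s, lo e w (p s) (i s) v.1 = (u v).1 ∨ lo e w (p s) (i s) (u v).1 = v.1 := by
    intro s
    rw [← js_com (hcase s)]
    obtain ⟨r, hr1, hr2⟩ := h.some s v
    have hI : fam e w p i k J r = (s, clA e w (p s) (i s) v.1) := by rw [h.on_cl hk hr2, hr1]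
    by_cases ht : FTwo P (fam e w p i k J) (fam e w p i k J r)
    · have h3 := hM.two r v ht hr2
      have h4 := h.js_oth hk hr2
      rwa [h3, hr1] at h4
    · have h3 := hM.half _ v ht ⟨r, rfl, hr2⟩
      have h4 : {q : {r : RgA σ e k D // J r} | fam e w p i k J q = fam e w p i k J r ∧ P.On q v ∧
          P.oth q v = u v}.Nonempty := by
        rw [← Set.ncard_pos (Set.toFinite _), h3]
        exact hk0
      obtain ⟨q, h5, h6, h7⟩ := h4
      have h8 := h.js_oth hk h6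
      have h9 : q.1.1 = s := by
        have := congrArg Prod.fst h5
        exact this.trans hr1
      rwa [h7, h9] at h8
  have hfin : ¬ (i s = i s' ∧ p s = p s') := fun h3 => h1.elim (fun h4 => h4 h3.1) fun h4 => h4 h3.2
  have hfin2 : ¬ (i s + i s' = e ∧ p s * p s' = w) := fun h3 => h2.elim (fun h4 => h4 h3.1) fun h4 => h4 h3.2
  rcases key s with a | a <;> rcases key s' with b | b
  · exact hfin (lo_eq hi hie (a.trans b.symm))
  · rw [← a] at b
    obtain ⟨c1, c2⟩ := lo_two hi hie (hcase s') b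
    refine hfin2 ⟨c1, ?_⟩
    have c3 : p s' = w * (p s)⁻¹ := by rw [← c2, mul_inv_cancel_right]
    rw [c3, ← mul_assoc, hcase s, mul_inv_cancel_right]
  · rw [← b] at a
    obtain ⟨c1, c2⟩ := lo_two hi hie (hcase s) a
    exact hfin2 ⟨by rw [add_comm]; exact c1, c2⟩
  · exact hfin (lo_eq hi hie (a.trans b.symm))

theorem PzA.conn (hk : w ^ k = 1) {v₀ : Fin e × D} (hA : CmpA e w p i k v₀ A) (h : PzA e w p i k A J P)
    (v u : {v // A v}) : Relation.ReflTransGen (fun a b => ∃ r, P.On r a ∧ P.On r b) v u := by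
  have hv₀ : A v₀ := (hA v₀).2 Relation.ReflTransGen.refl
  have key : ∀ x, Relation.ReflTransGen (JnA e w p i k) v₀ x → ∃ hx : A x,
      Relation.ReflTransGen (fun a b => ∃ r, P.On r a ∧ P.On r b) ⟨v₀, hv₀⟩ ⟨x, hx⟩ ∧
      Relation.ReflTransGen (fun a b => ∃ r, P.On r a ∧ P.On r b) ⟨x, hx⟩ ⟨v₀, hv₀⟩ := by
    intro x hx
    induction hx with
    | refl => exact ⟨hv₀, Relation.ReflTransGen.refl, Relation.ReflTransGen.refl⟩
    | @tail b c hb hbc ih =>
      obtain ⟨hb1, ih1, ih2⟩ := ih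
      obtain ⟨s, hs⟩ := hbc
      have hs' := (js_iff hk).1 hs
      have hc1 := cmp_js hk hA hs' hb1
      obtain ⟨q, _, q2, q3⟩ := h.rung hk (v := ⟨b, hb1⟩) (u := ⟨c, hc1⟩) hs'
      exact ⟨hc1, ih1.tail ⟨q, q2, q3⟩, Relation.ReflTransGen.head ⟨q, q3, q2⟩ ih2⟩
  obtain ⟨_, _, h2⟩ := key v.1 ((hA _).1 v.2)
  obtain ⟨_, h3, _⟩ := key u.1 ((hA _).1 u.2)
  exact h2.trans h3

/-- At least three strands. -/
theorem PzA.card [Fintype D] [Finite σ] [Fintype {v // A v}] (hi : ∀ s, 0 < i s) (hie : ∀ s, i s < e)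
    (hk : w ^ k = 1) {v₀ : Fin e × D} (hA : CmpA e w p i k v₀ A) (h : PzA e w p i k A J P) (hN : NonA e w p i) :
    3 ≤ Fintype.card {v // A v} := by
  classical
  by_contra hcon
  have hv₀ : A v₀ := (hA v₀).2 Relation.ReflTransGen.refl
  set v : {v // A v} := ⟨v₀, hv₀⟩ with hv
  have h3 : ∀ a b : {v // A v}, a ≠ v → b ≠ v → a = b := by
    intro a b ha hb
    by_contra hab
    apply hcon
    have h4 : ({v, a, b} : Finset {v // A v}).card = 3 := by
      rw [Finset.card_insert_of_notMem, Finset.card_pair hab]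
      rw [Finset.mem_insert, Finset.mem_singleton, not_or]
      exact ⟨Ne.symm ha, Ne.symm hb⟩
    rw [← h4]
    exact Finset.card_le_univ _
  have hoth : ∀ r, P.On r v → P.oth r v ≠ v := by
    intro r hr h4
    have h5 := h.js_oth hk hr
    rw [h4] at h5
    rcases h5 with h5 | h5
    · exact h5.ne (hi _) (hie _) rfl
    · exact h5.ne (hi _) (hie _) rfl
  by_cases hcase : ∃ s, p s * w ≠ w * p s
  · obtain ⟨s, hs⟩ := hcase
    obtain ⟨r, hr1, hr2⟩ := h.some s v
    exact h.not_par hi hie hk hA hs v (P.oth r v) fun r' h1 h2 => h3 _ _ (hoth r' h2) (hoth r hr2)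
  push Not at hcase
  rcases hN with ⟨s, hs⟩ | ⟨s, s', h1, _⟩
  · exact hs (hcase s)
  have hlo : ∀ s, ∃ hx : A (lo e w (p s) (i s) v.1), (⟨lo e w (p s) (i s) v.1, hx⟩ : {v // A v}) ≠ v := by
    intro s
    have h4 : Dn e w (p s) (i s) v.1 (lo e w (p s) (i s) v.1) := (dn_com (hcase s)).2 rfl
    refine ⟨cmp_js hk hA (Or.inl h4) v.2, fun h5 => ?_⟩
    exact h4.ne (hi s) (hie s) (congrArg Subtype.val h5).symm
  obtain ⟨x1, x2⟩ := hlo s
  obtain ⟨y1, y2⟩ := hlo s'
  have h4 := congrArg Subtype.val (h3 _ _ x2 y2)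
  have h5 := lo_eq hi hie h4
  exact h1.elim (fun h6 => h6 h5.1) fun h6 => h6 h5.2

omit [DecidableEq D] [NeZero k] in
theorem rtg_act {v u : Fin e × D} (n : ℤ) (g : D)
    (h : Relation.ReflTransGen (fun a b => ∃ s, Js e w (p s) (i s) a b) v u) :
    Relation.ReflTransGen (fun a b => ∃ s, Js e w (p s) (i s) a b) (act e w n g v) (act e w n g u) := by
  induction h with
  | refl => exact Relation.ReflTransGen.refl
  | tail _ hb ih =>
    obtain ⟨s, hs⟩ := hb
    exact ih.tail ⟨s, hs.elim (fun h1 => Or.inl (h1.act n g)) fun h1 => Or.inr (h1.act n g)⟩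

omit [DecidableEq D] in
theorem cmp_conn (hk : w ^ k = 1) {v₀ : Fin e × D} (hA : CmpA e w p i k v₀ A) {v u : Fin e × D} (hv : A v) :
    A u ↔ Relation.ReflTransGen (fun a b => ∃ s, Js e w (p s) (i s) a b) v u := by
  have h0 : ∀ x, A x ↔ Relation.ReflTransGen (fun a b => ∃ s, Js e w (p s) (i s) a b) v₀ x := by
    intro x
    rw [hA]
    constructor
    · intro h1
      induction h1 with
      | refl => exact Relation.ReflTransGen.refl
      | tail _ hb ih =>
        obtain ⟨s, hs⟩ := hb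
        exact ih.tail ⟨s, (js_iff hk).1 hs⟩
    · intro h1
      induction h1 with
      | refl => exact Relation.ReflTransGen.refl
      | tail _ hb ih =>
        obtain ⟨s, hs⟩ := hb
        exact ih.tail ⟨s, (js_iff hk).2 hs⟩
  have hsym : ∀ x, Relation.ReflTransGen (fun a b => ∃ s, Js e w (p s) (i s) a b) v₀ x →
      Relation.ReflTransGen (fun a b => ∃ s, Js e w (p s) (i s) a b) x v₀ := by
    intro x hx
    induction hx with
    | refl => exact Relation.ReflTransGen.refl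
    | tail _ hb ih =>
      obtain ⟨s, hs⟩ := hb
      exact Relation.ReflTransGen.head ⟨s, hs.symm⟩ ih
  rw [h0]
  have hv' := (h0 v).1 hv
  exact ⟨fun h => (hsym v hv').trans h, fun h => hv'.trans h⟩

omit [DecidableEq D] in
theorem cmp_act (hk : w ^ k = 1) {v₀ : Fin e × D} (hA : CmpA e w p i k v₀ A) {v : Fin e × D} (hv : A v) (n : ℤ)
    (g : D) (h : A (act e w n g v)) (u : Fin e × D) : A (act e w n g u) ↔ A u := by
  rw [cmp_conn hk hA hv (u := u), cmp_conn hk hA h (u := act e w n g u)]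
  constructor
  · intro h1
    have h2 := rtg_act (-n) g⁻¹ h1
    rwa [act_inv, act_inv] at h2
  · exact rtg_act n g

theorem PzA.n_iff (hk : w ^ k = 1) (h : PzA e w p i k A J P) (a b : {v // A v}) :
    AvoidOf.N P a b ↔ ∃ s, Js e w (p s) (i s) a.1 b.1 := by
  constructor
  · rintro ⟨r, h1 | h1⟩
    · refine ⟨r.1.1, ?_⟩
      have h2 := js_rg hk (p r.1.1) (i r.1.1) r.1.2
      rw [← h1.1, ← h1.2, h.x, h.y]
      exact h2
    · refine ⟨r.1.1, ?_⟩
      have h2 := js_rg hk (p r.1.1) (i r.1.1) r.1.2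
      rw [← h1.1, ← h1.2, h.x, h.y]
      exact h2.symm
  · rintro ⟨s, hs⟩
    have hk0 : 0 < k := Nat.pos_of_ne_zero (NeZero.ne k)
    rcases hs with hj | hj
    · obtain ⟨l, hl⟩ := (dn_iff hk0 hk).1 hj
      refine ⟨⟨(s, (a.1, l)), (h.hJ _).2 a.2⟩, Or.inl ⟨Subtype.ext (h.x _), Subtype.ext ?_⟩⟩
      rw [h.y]
      exact hl
    · obtain ⟨l, hl⟩ := (dn_iff hk0 hk).1 hj
      refine ⟨⟨(s, (b.1, l)), (h.hJ _).2 b.2⟩, Or.inr ⟨Subtype.ext (h.x _), Subtype.ext ?_⟩⟩
      rw [h.y]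
      exact hl

theorem PzA.free (hi : ∀ s, 0 < i s) (hie : ∀ s, i s < e) (hk : w ^ k = 1) {v₀ : Fin e × D}
    (hA : CmpA e w p i k v₀ A) (h : PzA e w p i k A J P) (s : σ) : FreeNb P := by
  intro v
  set g : D := v.1.2 * (p s)⁻¹ * v.1.2⁻¹ with hg
  set n : ℤ := -(i s : ℤ) with hn
  have h1 : act e w n g v.1 = lo e w (p s) (i s) v.1 := by
    show stN e w (n + (v.1.1 : ℕ)) (g * v.1.2) = stN e w ((v.1.1 : ℕ) - i s) (v.1.2 * (p s)⁻¹)
    rw [hg, hn]
    congr 1
    · ring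
    · rw [inv_mul_cancel_right]
  have h2 : Dn e w (p s) (i s) v.1 (lo e w (p s) (i s) v.1) := ⟨(v.1.1 : ℕ), v.1.2, stN_self _, rfl⟩
  have h3 : A (act e w n g v.1) := by
    rw [h1]
    exact cmp_js hk hA (Or.inl h2) v.2
  have h4 := cmp_act hk hA v.2 n g h3
  have hnd : ¬ (e : ℤ) ∣ n := by
    rw [hn]
    intro h5
    have h6 : (e : ℤ) ∣ i s := (dvd_neg (a := (e : ℤ))).1 h5
    have h7 := Nat.le_of_dvd (hi s) (Int.natCast_dvd_natCast.1 h6)
    have := hie s
    omega
  refine ⟨(act e w n g).subtypePerm h4, fun a b => ?_, fun a ha => ?_, ?_⟩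
  · rw [h.n_iff hk, h.n_iff hk]
    show (∃ s, Js e w (p s) (i s) (act e w n g a.1) (act e w n g b.1)) ↔ _
    unfold Js
    simp only [dn_act_iff]
  · exact act_ne hnd g a.1 (congrArg Subtype.val ha)
  · rw [h.n_iff hk]
    refine ⟨s, Or.inl ?_⟩
    show Dn e w (p s) (i s) v.1 (act e w n g v.1)
    rw [h1]
    exact h2

theorem connS_conn {S R : Type} [DecidableEq S] {P : Puz S R}
    (hC : ∀ v w, Relation.ReflTransGen (fun a b => ∃ r, P.On r a ∧ P.On r b) v w) : P.ConnS := by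
  have key : ∀ v w, Relation.ReflTransGen (fun a b => ∃ r, P.On r a ∧ P.On r b) v w → ∀ r r', P.On r v → P.On r' w →
      Relation.ReflTransGen (fun a b => ∃ v, P.On a v ∧ P.On b v) r r' := by
    intro v w h
    induction h with
    | refl => intro r r' h1 h2; exact Relation.ReflTransGen.single ⟨v, h1, h2⟩
    | @tail b c _ hbc ih =>
      intro r r' h1 h2
      obtain ⟨q, hq1, hq2⟩ := hbc
      exact (ih r q h1 hq1).tail ⟨c, hq2, h2⟩
  intro r r'
  exact key _ _ (hC (P.x r) (P.x r')) r r' (Or.inl rfl) (Or.inl rfl)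

end puz

/-- GRAPH for any number of middle letters. -/
theorem graphA {D : Type} [Group D] [Fintype D] [DecidableEq D] {σ : Type} [Fintype σ] [DecidableEq σ] {e : ℕ}
    [NeZero e] {w : D} {p : σ → D} {i : σ → ℕ} {k : ℕ} (hi : ∀ s, 0 < i s) (hie : ∀ s, i s < e) (hk0 : 0 < k)
    (hD : Nat.card D ∣ k) (hN : NonA e w p i) {v₀ : Fin e × D} {A : Fin e × D → Prop} (hA : CmpA e w p i k v₀ A)
    {J : RgA σ e k D → Prop} {P : Puz {v // A v} {r : RgA σ e k D // J r}} (h : PzA e w p i k A J P) :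
    SCon P ∧ P.TwoN ∧ P.NoCut ∧ P.ConnS ∧ ∀ v, {r | P.On r v}.ncard = 2 * k * Fintype.card σ := by
  classical
  have : NeZero k := ⟨by omega⟩
  have hk : w ^ k = 1 := orderOf_dvd_iff_pow_eq_one.1 ((orderOf_dvd_natCard w).trans hD)
  have hconn := h.conn hk hA
  have hS := connS_conn hconn
  obtain ⟨s⟩ : Nonempty σ := by
    rcases hN with ⟨s, _⟩ | ⟨s, _, _⟩ <;> exact ⟨s⟩
  have hfr := h.free hi hie hk hA s
  have h3 := h.card hi hie hk hA hN
  refine ⟨?_, twoN_of_free hfr hS h3, noCut_of_free hfr hS, hS, fun v => ?_⟩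
  · rcases scon_or_modeU (h.fams hi hie hk hA) h3 hconn with h1 | ⟨K, u, h1, _⟩
    · exact h1
    · exact (h.noMode hi hie hk hA hN h1).elim
  · have h1 : ∀ s, ((Finset.univ.filter fun r => P.On r v).filter fun r => r.1.1 = s).card = 2 * k := by
      intro s
      rw [← h.deg hk hA s v, ← Set.ncard_coe_finset]
      congr 1
      ext r
      simp [and_comm]
    have h2 : (Finset.univ.filter fun r => P.On r v).card =
        ∑ s : σ, ((Finset.univ.filter fun r => P.On r v).filter fun r => r.1.1 = s).card :=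
      Finset.card_eq_sum_card_fiberwise (fun r _ => Finset.mem_coe.2 (Finset.mem_univ r.1.1))
    have h3 : {r | P.On r v}.ncard = (Finset.univ.filter fun r => P.On r v).card := by
      rw [← Set.ncard_coe_finset]
      congr 1
      ext r
      simp
    rw [h3, h2, Finset.sum_congr rfl fun s _ => h1 s, Finset.sum_const, Finset.card_univ, smul_eq_mul, mul_comm]

/-- GRAPH for one letter. -/
theorem graphN : SQ5.N.GraphNS := by
  intro D _ _ _ w p i e k _ hi hie _ hk0 hD hn v₀ A hA J hJ P hx hy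
  classical
  have : NeZero k := ⟨by omega⟩
  have hk : w ^ k = 1 := orderOf_dvd_iff_pow_eq_one.1 ((orderOf_dvd_natCard w).trans hD)
  -- the same puzzle with the labels `Unit`
  let J' : RgA Unit e k D → Prop := fun r => J r.2
  let φ : {r : RgN e k D // J r} ≃ {r : RgA Unit e k D // J' r} :=
    { toFun := fun r => ⟨((), r.1), r.2⟩
      invFun := fun r => ⟨r.1.2, r.2⟩
      left_inv := fun r => rfl
      right_inv := fun r => rfl }
  let P' : Puz {v // A v} {r : RgA Unit e k D // J' r} :=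
    { x := fun r => P.x (φ.symm r)
      y := fun r => P.y (φ.symm r)
      ne := fun r => P.ne _
      tau := (φ.symm.trans P.tau).trans φ
      T := fun r => P.T (φ.symm r)
      T_ends := fun r => P.T_ends (φ.symm r) }
  have hcmp : CmpA e w (fun _ : Unit => p) (fun _ => i) k v₀ A := by
    intro v
    rw [hA v]
    constructor
    · intro h1
      induction h1 with
      | refl => exact Relation.ReflTransGen.refl
      | tail _ hb ih => exact ih.tail ⟨(), hb⟩
    · intro h1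
      induction h1 with
      | refl => exact Relation.ReflTransGen.refl
      | tail _ hb ih =>
        obtain ⟨_, hs⟩ := hb
        exact ih.tail hs
  have hP : PzA e w (fun _ : Unit => p) (fun _ => i) k A J' P' :=
    { hJ := fun r => hJ r.2
      x := fun r => hx _
      y := fun r => hy _
      tau1 := fun r => rfl
      tau2 := by
        intro s A' hA' r _
        -- `A'` is constant on the component
        have h1 : ∀ v, A v → (A' v ↔ A' v₀) := by
          intro v hv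
          rw [hA v] at hv
          induction hv with
          | refl => exact Iff.rfl
          | tail _ hb ih =>
            rw [← ih]
            obtain ⟨q, ⟨rfl, h2⟩ | ⟨rfl, h2⟩⟩ := hb
            · rw [← h2]; exact (hA' q).symm
            · rw [← h2]; exact hA' q
        have h2 : A r.1.2.1 := (hJ _).1 r.2
        have h3 : A (P'.tau r).1.2.1 := (hJ _).1 (P'.tau r).2
        rw [h1 _ h2, h1 _ h3] }
  obtain ⟨h1, h2, h3, h4, h5⟩ := graphA (fun _ => hi) (fun _ => hie) hk0 hD (Or.inl ⟨(), hn⟩) hcmp hP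
  have hadj : ∀ r r' v, P.Adj r r' v ↔ P'.Adj (φ r) (φ r') v := fun r r' v => Iff.rfl
  have hnx : ∀ a b, Nx P' a b → Nx P (φ.symm a) (φ.symm b) := by
    rintro a b ⟨r', v, h6, rfl⟩
    exact ⟨φ.symm r', v, h6, rfl⟩
  refine ⟨fun r r' => ?_, fun r v hv => ?_, fun L r r' hr hr' => ?_, fun r r' => ?_, fun v => ?_⟩
  · have h6 := h1 (φ r) (φ r')
    have h7 : ∀ x, Relation.ReflTransGen (Nx P') (φ r) x → Relation.ReflTransGen (Nx P) r (φ.symm x) := by
      intro x hx
      induction hx with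
      | refl => exact Relation.ReflTransGen.refl
      | tail _ hb ih => exact ih.tail (hnx _ _ hb)
    exact h7 _ h6
  · obtain ⟨r', h6⟩ := h2 (φ r) v hv
    exact ⟨φ.symm r', h6⟩
  · have h7 : ∀ x, Relation.ReflTransGen (fun a b => ¬ P'.On a L ∧ ¬ P'.On b L ∧ ∃ v, P'.On a v ∧ P'.On b v) (φ r) x →
        Relation.ReflTransGen (fun a b => ¬ P.On a L ∧ ¬ P.On b L ∧ ∃ v, P.On a v ∧ P.On b v) r (φ.symm x) := by
      intro x hx
      induction hx with
      | refl => exact Relation.ReflTransGen.refl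
      | tail _ hb ih => exact ih.tail hb
    exact h7 _ (h3 L (φ r) (φ r') hr hr')
  · have h7 : ∀ x, Relation.ReflTransGen (fun a b => ∃ v, P'.On a v ∧ P'.On b v) (φ r) x →
        Relation.ReflTransGen (fun a b => ∃ v, P.On a v ∧ P.On b v) r (φ.symm x) := by
      intro x hx
      induction hx with
      | refl => exact Relation.ReflTransGen.refl
      | tail _ hb ih => exact ih.tail hb
    exact h7 _ (h4 (φ r) (φ r'))
  · have h6 := h5 v
    rw [Fintype.card_unit, mul_one] at h6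
    rw [← h6, ← Set.ncard_image_of_injective _ φ.injective]
    congr 1
    ext r
    constructor
    · rintro ⟨q, hq, rfl⟩
      exact hq
    · intro hr
      exact ⟨φ.symm r, hr, φ.apply_symm_apply r⟩

end Pool.Agent.Lib.MP_688fd0_co.SQ5.H85
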