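import Pool.Agent.Lib.MP_688fd0_co.SQ5.NA.Iface
import Pool.Agent.Lib.MP_688fd0_co.SQ5.H85.GraphA

/-!
GRAPHA: the statement `SQ5.NA.GraphAS` from `SQ5.H85.graphA`.
-/

set_option autoImplicit false

namespace Pool.Agent.Lib.MP_688fd0_co.SQ5.NA

open Pool.Agent.Lib.MP_688fd0_co.OSF Pool.Agent.Lib.MP_688fd0_co.SQ2 Pool.Agent.Lib.MP_688fd0_co.SQ3
open Pool.Agent.Lib.MP_688fd0_co.SQ4 Pool.Agent.Lib.MP_688fd0_co.SQ5.N
open SQ2.V (Puz)

/-- A world which is not commutative is not degenerate. -/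
theorem nonA {σ D : Type} [Group D] {w : D} {p : σ → D} {i : σ → ℕ} {e : ℕ}
    (h : (∃ s, p s * w ≠ w * p s) ∨ ∃ s s', p s * p s' ≠ p s' * p s) : H85.NonA e w p i := by
  rcases h with h | ⟨s, s', h⟩
  · exact Or.inl h
  · by_cases h1 : p s * p s' = w
    · refine Or.inl ⟨s, fun h2 => h ?_⟩
      rw [← h1] at h2
      -- `p s * (p s * p s') = (p s * p s') * p s`
      rw [mul_assoc (p s) (p s') (p s)] at h2
      exact mul_left_cancel h2
    · refine Or.inr ⟨s, s', Or.inr fun h2 => h ?_, Or.inr h1⟩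
      rw [h2]

theorem graphA : GraphAS := by
  intro σ _ _ D _ _ _ w p i e k _ hi hie hk0 hD hn v₀ A hA J hJ P hx hy ht hE
  classical
  have : NeZero k := ⟨by omega⟩
  -- the same puzzle with pairs
  let J' : H85.RgA σ e k D → Prop := fun r => J ⟨r.1, r.2⟩
  let φ : {r : RgA σ e k D // J r} ≃ {r : H85.RgA σ e k D // J' r} :=
    { toFun := fun r => ⟨(r.1.1, r.1.2), r.2⟩
      invFun := fun r => ⟨⟨r.1.1, r.1.2⟩, r.2⟩
      left_inv := fun r => rfl
      right_inv := fun r => rfl }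
  let P' : Puz {v // A v} {r : H85.RgA σ e k D // J' r} :=
    { x := fun r => P.x (φ.symm r)
      y := fun r => P.y (φ.symm r)
      ne := fun r => P.ne _
      tau := (φ.symm.trans P.tau).trans φ
      T := fun r => P.T (φ.symm r)
      T_ends := fun r => P.T_ends (φ.symm r) }
  have hcmp : H85.CmpA e w p i k v₀ A := hA
  have hP : H85.PzA e w p i k A J' P' :=
    { hJ := fun r => hJ ⟨r.1, r.2⟩
      x := fun r => hx _
      y := fun r => hy _
      tau1 := fun r => ht (φ.symm r)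
      tau2 := by
        intro s A' hA' r hr
        have h1 := hE s A' hA' (φ.symm r) hr
        rw [hx, hx] at h1
        exact h1 }
  obtain ⟨h1, h2, h3, h4, h5⟩ := H85.graphA hi hie hk0 hD (nonA hn) hcmp hP
  have hadj : ∀ r r' v, P.Adj r r' v ↔ P'.Adj (φ r) (φ r') v := fun r r' v => Iff.rfl
  have hnx : ∀ a b, Nx P' a b → Nx P (φ.symm a) (φ.symm b) := by
    rintro a b ⟨r', v, h6, rfl⟩
    exact ⟨φ.symm r', v, h6, rfl⟩
  refine ⟨fun r r' => ?_, fun r v hv => ?_, fun L r r' hr hr' => ?_, fun r r' => ?_, fun v => ?_⟩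
  · have h6 := h1 (φ r) (φ r')
    have h7 : ∀ x, Relation.ReflTransGen (Nx P') (φ r) x → Relation.ReflTransGen (Nx P) r (φ.symm x) := by
      intro x hx
      induction hx with
      | refl => exact Relation.ReflTransGen.refl
      | tail _ hb ih => exact ih.tail (hnx _ _ hb)
    exact h7 _ h6
  · obtain ⟨r', h6⟩ := h2 (φ r) v hv
    exact ⟨φ.symm r', h6⟩
  · have h7 : ∀ x, Relation.ReflTransGen (fun a b => ¬ P'.On a L ∧ ¬ P'.On b L ∧ ∃ v, P'.On a v ∧ P'.On b v) (φ r) x →
        Relation.ReflTransGen (fun a b => ¬ P.On a L ∧ ¬ P.On b L ∧ ∃ v, P.On a v ∧ P.On b v) r (φ.symm x) := by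
      intro x hx
      induction hx with
      | refl => exact Relation.ReflTransGen.refl
      | tail _ hb ih => exact ih.tail hb
    exact h7 _ (h3 L (φ r) (φ r') hr hr')
  · have h7 : ∀ x, Relation.ReflTransGen (fun a b => ∃ v, P'.On a v ∧ P'.On b v) (φ r) x →
        Relation.ReflTransGen (fun a b => ∃ v, P.On a v ∧ P.On b v) r (φ.symm x) := by
      intro x hx
      induction hx with
      | refl => exact Relation.ReflTransGen.refl
      | tail _ hb ih => exact ih.tail hb
    exact h7 _ (h4 (φ r) (φ r'))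
  · have h6 := h5 v
    rw [← h6, ← Set.ncard_image_of_injective _ φ.injective]
    congr 1
    ext r
    constructor
    · rintro ⟨q, hq, rfl⟩
      exact hq
    · intro hr
      exact ⟨φ.symm r, hr, φ.apply_symm_apply r⟩

end Pool.Agent.Lib.MP_688fd0_co.SQ5.NA
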