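import Pool.Agent.Lib.MP_688fd0_co.SQ5.H85.ThrV

/-!
FT, row THRR (helper85): `Vts` (the list of the visits over the run charts on the whole group) and `SubC` (the charts of `X` are the
parts of the run charts in the cosets) give helper62's `ThrR`.
-/

set_option autoImplicit false

namespace Pool.Agent.Lib.MP_688fd0_co.SQ5.H85

open Function Pool.Agent.Lib.MP_688fd0_co.OSF Pool.Agent.Lib.MP_688fd0_co.SQ5.H76
open Pool.Agent.Lib.MP_688fd0_co.SQ5.H12 Pool.Agent.Lib.MP_688fd0_co.SQ5.FT Pool.Agent.Lib.MP_688fd0_co.SQ5.H95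

universe v

section

variable {Q : Type} [Group Q] {B : Lb.{0, v} Q} {l : L3 → B.L} {L : AddSubgroup (ℤ × ℤ)} {M R : ℕ} {dc : ℕ → ℤ}
  {spc : ℕ → Prop} {G : ℤ} {g : Geo L M R dc spc G} {m0 : ℕ} {hw : ℤ → ℕ}

/-- The charts of `X` are the parts of the run charts in the cosets. -/
structure SubC (H : Geo.Mn g m0 hw) (c : Cov B l L) (κ0 κ1 : ℤ) {Ξ : Type} (cs : Q → Ξ) {F : HF B} {Z : Type}
    {S : Z → Type} {N : Z → ℕ} (X : Rgs F Z S N) (ξ : Z → Ξ) (zr : Z → ℤ) where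
  ι : ∀ z, S z → Sd c (H.bd (zr z)) (g.rs (zr z)) κ0 κ1
  Z : ∀ z m s r, (X.C z).Z m s r = ((H.bd (zr z)).chart c (g.rs (zr z)) κ0 κ1).Z m (ι z s) r
  h : ∀ z m s, (X.C z).h m s = ((H.bd (zr z)).chart c (g.rs (zr z)) κ0 κ1).h m (ι z s)
  hit : ∀ z (s' : Sd c (H.bd (zr z)) (g.rs (zr z)) κ0 κ1), cs s'.1.2 = ξ z → ∃ s, ι z s = s'
  cι : ∀ z s, cs (ι z s).1.2 = ξ z
  inj : ∀ z z', ξ z = ξ z' → zr z = zr z' → z = z'
  ex : ∀ k z, 0 ≤ z → z < g.w.Et → ∃ z', ξ z' = k ∧ zr z' = z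

variable {H : Geo.Mn g m0 hw} {c : Cov B l L} {hi : ∀ i, B.inv (l i) = l i} {Ξ : Type} {cs : Q → Ξ} {A : Set Q}
  {kk : ℤ} {u m : ℕ} {gap en : ℤ → ℕ} {κ0 κ1 : ℤ}

section sub

variable {F : HF B} {Z : Type} {S : Z → Type} {N : Z → ℕ} {X : Rgs F Z S N} {ξ : Z → Ξ} {zr : Z → ℤ}
  (Y : SubC H c κ0 κ1 cs X ξ zr)

/-- The strands at the two walls of the wide strip. -/
def SubC.W (kk : ℤ) (z : Z) : Set (S z) := {s | kk + 1 ≤ (Y.ι z s).1.1 ∧ (Y.ι z s).1.1 ≤ kk + 2}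

theorem SubC.mem (hcs : ∀ x i, cs (x * B.q (l i)) = cs x) (h0 : κ0 ≤ kk + 1) (h1 : kk + 2 ≤ κ1) {z : Z} {lo hi : ℕ}
    {x : Q} : x ∈ Vis X (Y.W kk) z lo hi ↔
      cs x = ξ z ∧ x ∈ Zv (Vts.Cz H c kk (zr z)) (fun _ => lo) (fun _ => hi) := by
  constructor
  · rintro ⟨s, hs, m, r, h2, h3, h4, rfl⟩
    refine ⟨?_, ⟨⟨(Y.ι z s).1, hs.1, hs.2, (Y.ι z s).2.2.2⟩, m, r, h2, h3, ?_, ?_⟩⟩
    · rw [Y.Z, Vts.cs_Z hcs, Y.cι]
    · rw [Y.h] at h4
      exact h4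
    · rw [Y.Z]; rfl
  · rintro ⟨h2, s, m, r, h3, h4, h5, rfl⟩
    rw [Vts.cs_Z hcs] at h2
    obtain ⟨s0, hs0⟩ := Y.hit z ⟨s.1, h0.trans s.2.1, s.2.2.1.trans h1, s.2.2.2⟩ h2
    refine ⟨s0, ?_, m, r, h3, h4, ?_, ?_⟩
    · show kk + 1 ≤ (Y.ι z s0).1.1 ∧ (Y.ι z s0).1.1 ≤ kk + 2
      rw [hs0]
      exact ⟨s.2.1, s.2.2.1⟩
    · rw [Y.h, hs0]
      exact h5
    · rw [Y.Z, hs0]; rfl

theorem SubC.mem' (hcs : ∀ x i, cs (x * B.q (l i)) = cs x) (h0 : κ0 ≤ kk + 1) (h1 : kk + 2 ≤ κ1) {z : Z} {z' : ℤ}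
    (hz : zr z = z') {lo hi : ℕ} {x : Q} : x ∈ Vis X (Y.W kk) z lo hi ↔
      cs x = ξ z ∧ x ∈ Zv (Vts.Cz H c kk z') (fun _ => lo) (fun _ => hi) := by
  subst hz
  exact Y.mem hcs h0 h1

theorem SubC.lift' (h0 : κ0 ≤ kk + 1) (h1 : kk + 2 ≤ κ1) {z : Z} {z' : ℤ} (hz : zr z = z')
    (s : Sd c (H.bd z') (g.rs z') (kk + 1) (kk + 2)) (hs : cs s.1.2 = ξ z) : ∃ s0 ∈ Y.W kk z, ∀ m,
      (X.C z).h m s0 = (Vts.Cz H c kk z').h m s ∧ ∀ r, (X.C z).Z m s0 r = (Vts.Cz H c kk z').Z m s r := by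
  subst hz
  obtain ⟨s0, hs0⟩ := Y.hit z ⟨s.1, h0.trans s.2.1, s.2.2.1.trans h1, s.2.2.2⟩ hs
  refine ⟨s0, ?_, fun m => ⟨?_, fun r => ?_⟩⟩
  · show kk + 1 ≤ (Y.ι z s0).1.1 ∧ (Y.ι z s0).1.1 ≤ kk + 2
    rw [hs0]
    exact ⟨s.2.1, s.2.2.1⟩
  · rw [Y.h, hs0]; rfl
  · rw [Y.Z, hs0]; rfl

end sub

namespace Vts

variable (a : Vts H c hi cs A kk u m gap en) (hl : Injective l) (hii : ∀ x, B.inv (B.inv x) = x) (hk0 : 2 ≤ kk + 1)
  (hk1 : kk + 2 ≤ m0) (hen : ∀ z, en z ≤ g.rE z) (hcs : ∀ x i, cs (x * B.q (l i)) = cs x) (hm : 0 < m) (φ : B.L)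
  (hφ : B.q φ = ((a.K (3 * m - 1)).w (a.n (3 * m - 1) - 1))⁻¹ * a.v0 0) (hφl : ∀ i, φ ≠ l i)

include hk0 hk1 in
/-- The strands of the run charts. -/
theorem rnF (hq : Injective (qq B l)) (z : ℤ) : RnF (g.F c hl hi hii) (Cz H c kk z) (g.rE z) := by
  have h := RnF.of_rn ((H.rg z hk0 hk1).rn c hi hq) hii
  have hE : ∀ x y, ((g.mch c hi hq).hf hii).Ed x y → (g.F c hl hi hii).Ed x y := by
    rintro x y ⟨b, hb, e⟩
    rw [g.mch_hf c hl hi hq hii] at hb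
    exact ⟨b, hb, e⟩
  exact ⟨h.hpos, h.inj, fun m s r h1 h2 => hE _ _ (h.line m s r h1 h2), fun m s h1 => hE _ _ (h.gate m s h1)⟩

/-- The zone of the visit `t`. -/
def zn (t : ℕ) : Set Q := {x | cs x = cs (a.v0 t) ∧
  x ∈ Zv (Cz H c kk (a.z t)) (fun _ => a.n1 t - 1) (fun _ => a.n1 t + a.n t)}

theorem v_zv {t : ℕ} (ht : t ≤ 3 * m) {j : ℕ} (hj : j < a.n t) :
    (a.K t).v j ∈ Zv (Cz H c kk (a.z t)) (fun _ => a.n1 t - 1) (fun _ => a.n1 t + a.n t) := by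
  refine ⟨a.ct t j, a.n1 t + j, _, ?_, ?_, ?_, a.v_eq ht hj⟩
  · show a.n1 t - 1 ≤ _
    omega
  · show _ ≤ a.n1 t + a.n t
    omega
  · rw [a.h_ct]
    exact a.lt_hv ht hj

theorem w_zv {t : ℕ} (ht : t ≤ 3 * m) {j : ℕ} (hj : j < a.n t) :
    (a.K t).w j ∈ Zv (Cz H c kk (a.z t)) (fun _ => a.n1 t - 1) (fun _ => a.n1 t + a.n t) := by
  refine ⟨a.ct t j, a.n1 t + j, _, ?_, ?_, ?_, a.w_eq ht hj⟩
  · show a.n1 t - 1 ≤ _
    omega
  · show _ ≤ a.n1 t + a.n t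
    omega
  · rw [a.h_ct]
    exact a.lt_hw ht hj

include hcs in
theorem v_zn {t : ℕ} (ht : t ≤ 3 * m) {j : ℕ} (hj : j < a.n t) : (a.K t).v j ∈ a.zn t := ⟨a.cs_v hcs t j, a.v_zv ht hj⟩

include hcs in
theorem w_zn {t : ℕ} (ht : t ≤ 3 * m) {j : ℕ} (hj : j < a.n t) : (a.K t).w j ∈ a.zn t := ⟨a.cs_w hcs t j, a.w_zv ht hj⟩

include hk0 hk1 hen hcs in
/-- The other visits do not meet the zone. -/
theorem zn_far {t t' : ℕ} (ht : t ≤ 3 * m) (ht' : t' ≤ 3 * m) (hne : t' ≠ t) {j : ℕ} (hj : j < a.n t') :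
    (a.K t').v j ∉ a.zn t := by
  rintro ⟨h1, s, b, r, h2, h3, h4, h5⟩
  rw [a.cs_v hcs] at h1
  have z1 := a.z0 t
  have z2 := a.z1 t
  have z3 := a.z0 t'
  have z4 := a.z1 t'
  have h6 := a.top t ht
  have h7 := hen (a.z t)
  have hb : b ≤ g.rE (a.z t) := by
    have : b ≤ a.n1 t + a.n t := h3
    unfold n at this
    omega
  rw [a.v_eq ht' hj] at h5
  obtain ⟨e1, e2, -, -⟩ := H.far c hi (z := a.z t') (z' := a.z t) (by omega) (by omega) hk0 hk1 hk0 hk1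
    (a.blk_le hen ht' hj) hb (by rw [a.h_ct]; exact a.lt_hv ht' hj) h4 h5
  have h8 := a.sep t ht t' ht' hne.symm h1.symm e1.symm
  have h9 : a.n1 t - 1 ≤ b := h2
  have h10 : b ≤ a.n1 t + a.n t := h3
  unfold n at hj h10
  omega

/-- The edges in the zone, `Fp` = the new 2-factor. -/
def Ez (F Fp : HF B) (k : Ξ) (x y : Q) : Prop := (cs x = k ∧ cs y = k ∧ Fp.Ed x y) ∨ (cs x ≠ k ∧ F.Ed x y)

theorem cs_ed (hcs : ∀ x i, cs (x * B.q (l i)) = cs x) {x y : Q} (h : (g.F c hl hi hii).Ed x y) : cs y = cs x := by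
  obtain ⟨b, hb, rfl⟩ := h
  obtain ⟨i, rfl⟩ := F_range hl hii hb
  exact hcs x i

/-- The paths in the zone. -/
theorem cn_coset {F Fp : HF B} (hF : ∀ x y, F.Ed x y → cs y = cs x) {k : Ξ} {T : Set Q} {x y : Q} (hx : cs x = k)
    (h : H22.Cn (Ez (cs := cs) F Fp k) T x y) : cs y = k ∧ H22.Cn Fp.Ed {x | cs x = k ∧ x ∈ T} x y := by
  induction h with
  | refl => exact ⟨hx, H22.Cn.rfl' _⟩
  | tail _ hs ih =>
    obtain ⟨h1, h2⟩ := ih
    obtain ⟨h3 | h3, h4, h5⟩ := hs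
    · exact ⟨h3.2.1, h2.trans' (H22.Cn.of h3.2.2 ⟨h1, h4⟩ ⟨h3.2.1, h5⟩)⟩
    · exact absurd h1 h3.1

/-- THE ZONE. -/
theorem zone (hq : Injective (qq B l)) {t : ℕ} (ht : t < 3 * m) : Zone (Ez (cs := cs) (g.F c hl hi hii)
    (a.thd hl hii hk0 hk1 hen hcs hm φ hφ hφl).hf (cs (a.v0 t))) (Cz H c kk (a.z t)) (fun _ => a.n1 t - 1)
    (fun _ => a.n1 t + a.n t) (a.n1 t) (a.n1 t + (a.x t * u + a.j t))
    (cc (runD_bd H (a.z t)) le_rfl le_rfl (a.K t)) (rho (a.K t)) (alg (a.K t)) (fun b => (a.K t).v (b - a.n1 t))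
    (fun b => (a.K t).w (b - a.n1 t)) := by
  have hF : ∀ x y, (g.F c hl hi hii).Ed x y → cs y = cs x := fun x y h => cs_ed hl hii hcs h
  have hR := rnF (H := H) (c := c) (hi := hi) hl hii hk0 hk1 hq (a.z t)
  have htop := a.top t ht.le
  have hbot := a.bot t ht.le
  have hen' := hen (a.z t)
  set D := a.thd hl hii hk0 hk1 hen hcs hm φ hφ hφl with hD
  have hZ : ∀ (i' : Fin (3 * m)) (j : ℕ), j < D.n i' → i' ≠ ⟨t, ht⟩ → D.v i' j ∉ a.zn t := by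
    intro i' j hj hne
    exact a.zn_far hk0 hk1 hen hcs ht.le i'.2.le (fun h => hne (Fin.ext h)) hj
  refine mkZone ?_ ?_ ?_ ?_ ?_ ?_ ?_
  · rintro x y (⟨h1, h2, h3⟩ | ⟨h1, h2⟩)
    · exact Or.inl ⟨h2, h1, HF.ed_symm _ h3⟩
    · exact Or.inr ⟨by rw [hF _ _ h2]; exact h1, HF.ed_symm _ h2⟩
  · intro _
    show a.n1 t - 1 < a.n1 t
    omega
  · intro _
    show _ < a.n1 t + a.n t
    unfold n
    omega
  · intro b s r h1 h2 h3 h4
    have h1 : a.n1 t - 1 ≤ b := h1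
    have h2 : b ≤ a.n1 t + a.n t := h2
    have h5 := hR.line b s r (by unfold n at h2; omega) h3
    by_cases hc : cs s.1.2 = cs (a.v0 t)
    · have c1 : cs ((Cz H c kk (a.z t)).Z b s r) = cs (a.v0 t) := by rw [cs_Z hcs, hc]
      have c2 : cs ((Cz H c kk (a.z t)).Z b s (r + 1)) = cs (a.v0 t) := by rw [cs_Z hcs, hc]
      refine Or.inl ⟨c1, c2, ?_⟩
      have hb : b ≤ g.rE (a.z t) := by unfold n at h2; omega
      refine D.ed_zone (Z := a.zn t) (i := ⟨t, ht⟩) hZ ⟨c1, s, b, r, h1, h2, h3.le, rfl⟩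
        ⟨c2, s, b, r + 1, h1, h2, h3, rfl⟩ h5 ?_ ?_
      · rintro j hj ⟨e1, e2⟩
        have hj : j < a.n t := hj
        have e1 : (a.K t).v j = (Cz H c kk (a.z t)).Z b s r := e1
        have e2 : (a.K t).w j = (Cz H c kk (a.z t)).Z b s (r + 1) := e2
        rw [a.v_eq ht.le hj] at e1
        rw [a.w_eq ht.le hj] at e2
        obtain ⟨f1, f2, f3⟩ := hR.inj _ _ _ _ _ _ (a.blk_le hen ht.le hj) hb (by rw [a.h_ct]; exact a.lt_hv ht.le hj) h3.le e1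
        obtain ⟨-, -, f6⟩ := hR.inj _ _ _ _ _ _ (a.blk_le hen ht.le hj) hb (by rw [a.h_ct]; exact a.lt_hw ht.le hj) h3 e2
        have f7 := a.ran ht.le hj
        subst f1
        subst f2
        refine h4 ⟨by omega, by unfold n at hj; omega, rfl, ?_⟩
        unfold rho
        split_ifs at f6 ⊢ with f8
        · omega
        · exact f3.symm
      · rintro j hj ⟨e1, e2⟩
        have hj : j < a.n t := hj
        have e1 : (a.K t).w j = (Cz H c kk (a.z t)).Z b s r := e1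
        have e2 : (a.K t).v j = (Cz H c kk (a.z t)).Z b s (r + 1) := e2
        rw [a.w_eq ht.le hj] at e1
        rw [a.v_eq ht.le hj] at e2
        obtain ⟨f1, f2, f3⟩ := hR.inj _ _ _ _ _ _ (a.blk_le hen ht.le hj) hb (by rw [a.h_ct]; exact a.lt_hw ht.le hj) h3.le e1
        obtain ⟨-, -, f6⟩ := hR.inj _ _ _ _ _ _ (a.blk_le hen ht.le hj) hb (by rw [a.h_ct]; exact a.lt_hv ht.le hj) h3 e2
        have f7 := a.ran ht.le hj
        subst f1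
        subst f2
        refine h4 ⟨by omega, by unfold n at hj; omega, rfl, ?_⟩
        unfold rho
        split_ifs at f3 ⊢ with f8
        · exact f3.symm
        · omega
    · exact Or.inr ⟨by rw [cs_Z hcs]; exact hc, h5⟩
  · intro b s h1 h2
    have h1 : a.n1 t - 1 ≤ b := h1
    have h2 : b < a.n1 t + a.n t := h2
    have h5 := hR.gate b s (by unfold n at h2; omega)
    by_cases hc : cs s.1.2 = cs (a.v0 t)
    · have c1 : cs ((Cz H c kk (a.z t)).Z b s ((Cz H c kk (a.z t)).h b s)) = cs (a.v0 t) := by rw [cs_Z hcs, hc]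
      have c2 : cs ((Cz H c kk (a.z t)).Z (b + 1) s 0) = cs (a.v0 t) := by rw [cs_Z hcs, hc]
      refine Or.inl ⟨c1, c2, ?_⟩
      have hb : b + 1 ≤ g.rE (a.z t) := by unfold n at h2; omega
      refine D.ed_zone (Z := a.zn t) (i := ⟨t, ht⟩) hZ ⟨c1, s, b, _, h1, h2.le, le_rfl, rfl⟩
        ⟨c2, s, b + 1, 0, (by show a.n1 t - 1 ≤ b + 1; omega), h2, Nat.zero_le _, rfl⟩ h5 ?_ ?_
      · rintro j hj ⟨e1, e2⟩
        have hj : j < a.n t := hj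
        have e1 : (a.K t).v j = (Cz H c kk (a.z t)).Z b s ((Cz H c kk (a.z t)).h b s) := e1
        have e2 : (a.K t).w j = (Cz H c kk (a.z t)).Z (b + 1) s 0 := e2
        rw [a.v_eq ht.le hj] at e1
        rw [a.w_eq ht.le hj] at e2
        obtain ⟨f1, -, -⟩ := hR.inj _ _ _ _ _ _ (a.blk_le hen ht.le hj) (by omega) (by rw [a.h_ct]; exact a.lt_hv ht.le hj) le_rfl e1
        obtain ⟨f2, -, -⟩ := hR.inj _ _ _ _ _ _ (a.blk_le hen ht.le hj) hb (by rw [a.h_ct]; exact a.lt_hw ht.le hj) (Nat.zero_le _) e2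
        omega
      · rintro j hj ⟨e1, e2⟩
        have hj : j < a.n t := hj
        have e1 : (a.K t).w j = (Cz H c kk (a.z t)).Z b s ((Cz H c kk (a.z t)).h b s) := e1
        have e2 : (a.K t).v j = (Cz H c kk (a.z t)).Z (b + 1) s 0 := e2
        rw [a.w_eq ht.le hj] at e1
        rw [a.v_eq ht.le hj] at e2
        obtain ⟨f1, -, -⟩ := hR.inj _ _ _ _ _ _ (a.blk_le hen ht.le hj) (by omega) (by rw [a.h_ct]; exact a.lt_hw ht.le hj) le_rfl e1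
        obtain ⟨f2, -, -⟩ := hR.inj _ _ _ _ _ _ (a.blk_le hen ht.le hj) hb (by rw [a.h_ct]; exact a.lt_hv ht.le hj) (Nat.zero_le _) e2
        omega
    · exact Or.inr ⟨by rw [cs_Z hcs]; exact hc, h5⟩
  · intro j hj
    refine Or.inl ⟨a.cs_w hcs t j, a.cs_v hcs t (j + 1), ?_⟩
    exact D.ed_hand (i := ⟨t, ht⟩) (j := j) (by show j + 1 < a.n t; unfold n; omega)
  · intro j hj
    exact a.hin ht.le (by unfold n; omega)

/-- Every vertex of the zone is joined to an end of a strand. -/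
theorem con (hq : Injective (qq B l)) {t : ℕ} (ht : t < 3 * m) {x : Q} (hx : x ∈ a.zn t) :
    ∃ s : Sd c (H.bd (a.z t)) (g.rs (a.z t)) (kk + 1) (kk + 2), cs s.1.2 = cs (a.v0 t) ∧
      (H22.Cn (a.thd hl hii hk0 hk1 hen hcs hm φ hφ hφl).hf.Ed (a.zn t) x ((Cz H c kk (a.z t)).Z (a.n1 t - 1) s 0) ∨
        H22.Cn (a.thd hl hii hk0 hk1 hen hcs hm φ hφ hφl).hf.Ed (a.zn t) x ((Cz H c kk (a.z t)).Z (a.n1 t + a.n t) s
          ((Cz H c kk (a.z t)).h (a.n1 t + a.n t) s))) := by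
  classical
  have hF : ∀ x y, (g.F c hl hi hii).Ed x y → cs y = cs x := fun x y h => cs_ed hl hii hcs h
  obtain ⟨-, h1⟩ := zone_conc (a.j1 t) (a.zone hl hii hk0 hk1 hen hcs hm φ hφ hφl hq ht) (a.good t ht.le _)
  obtain ⟨s, h2 | h2⟩ := h1 x hx.2
  · obtain ⟨h3, h4⟩ := cn_coset hF hx.1 h2
    rw [cs_Z hcs] at h3
    exact ⟨s, h3, Or.inl h4⟩
  · obtain ⟨h3, h4⟩ := cn_coset hF hx.1 h2
    rw [cs_Z hcs] at h3
    exact ⟨s, h3, Or.inr h4⟩

section fin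

variable {Z : Type} {S : Z → Type} {N : Z → ℕ} {X : Rgs (g.F c hl hi hii) Z S N} {ξ : Z → Ξ} {zr : Z → ℤ}
  (Y : SubC H c κ0 κ1 cs X ξ zr)

include Y in
theorem exists_z (t : ℕ) : ∃ z', ξ z' = cs (a.v0 t) ∧ zr z' = a.z t := Y.ex _ _ (a.z0 t) (a.z1 t)

include a hk0 hk1 hen hcs in
/-- THRR: the thread in helper62's form. -/
theorem exists_thrR (hq : Injective (qq B l)) (h0 : κ0 ≤ kk + 1) (h1 : kk + 2 ≤ κ1)
    (hN : ∀ z, en (zr z) ≤ N z * (X.l z + 1)) (hA : ∀ i, B.q (l i) ∈ A) (hsym : ∀ x ∈ A, x⁻¹ ∈ A) (hm2 : 2 ≤ m)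
    (fic : ∀ x : Q, x ≠ 1 → ∃ φ : B.L, B.q φ = x ∧ ∀ i, φ ≠ l i) :
    Nonempty (ThrR A X (Y.W kk) (fun z => gap (zr z)) ξ) := by
  have hm : 0 < m := by omega
  obtain ⟨φ, hφ, hφl⟩ := fic (((a.K (3 * m - 1)).w (a.n (3 * m - 1) - 1))⁻¹ * a.v0 0) (by
    intro h
    rw [inv_mul_eq_one] at h
    exact a.v_ne_w hk0 hk1 hen hcs (t := 0) (t' := 3 * m - 1) (j := 0) (j' := a.n (3 * m - 1) - 1) (Nat.zero_le _)
      (by omega) (Nat.succ_pos _) (Nat.sub_lt (Nat.succ_pos _) Nat.one_pos) h.symm)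
  set D := a.thd hl hii hk0 hk1 hen hcs hm φ hφ hφl with hD
  choose zz z1 z2 using a.exists_z hl hii Y
  have hvis : ∀ t, Vis X (Y.W kk) (zz t) (a.n1 t - 1) (a.n1 t + a.n t) = a.zn t := by
    intro t
    ext x
    rw [Y.mem' hcs h0 h1 (z2 t), z1]
    rfl
  have hlast : 3 * m - 1 < 3 * m := by omega
  have hgl : D.g ⟨3 * m - 1, hlast⟩ = φ := if_neg (by show ¬ 3 * m - 1 + 1 < 3 * m; omega)
  have hgi : ∀ i : Fin (3 * m), (i : ℕ) + 1 < 3 * m → D.g i = a.th i := fun i h => if_pos h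
  have hgA : ∀ t < 3 * m, B.q (B.inv (a.th t)) ∈ A := fun t ht => by
    rw [B.q_inv]
    exact hsym _ (a.thA t ht)
  refine ⟨{ F' := D.hf
            T := D.T
            off := fun x hx => D.off hx
            m := m
            m2 := hm2
            z := zz
            lo := fun t => a.n1 t - 1
            hi := fun t => a.n1 t + a.n t
            lohi := fun t _ => by
              show a.n1 t - 1 ≤ a.n1 t + a.n t
              omega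
            bot := fun t ht => ?_
            top := fun t ht => ?_
            sep := fun t ht t' ht' hne hz => ?_
            TV := ?_
            con := fun t ht x _ hx => ?_
            per := fun t ht => by rw [z1, z1]; exact a.per t ht
            all := fun k => ?_
            e := a.v0
            y := fun t => (a.K t).w (a.n t - 1)
            eV := fun t ht => by
              rw [hvis]
              exact a.v_zn hcs ht (j := 0) (Nat.succ_pos _)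
            yV := fun t ht => by
              rw [hvis]
              exact a.w_zn hcs ht.le (Nat.sub_lt (Nat.succ_pos _) Nat.one_pos)
            ye := fun t ht => ?_
            d₀ := D.d₀ ⟨3 * m - 1, hlast⟩
            d0y := rfl
            d0e := ?_
            lab := ?_
            zA := ?_ }⟩
  · show gap (zr (zz t)) ≤ a.n1 t - 1
    have := a.bot t ht
    rw [z2]
    omega
  · show a.n1 t + a.n t + gap (zr (zz t)) ≤ N (zz t) * (X.l (zz t) + 1)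
    refine le_trans ?_ (hN (zz t))
    have := a.top t ht
    rw [z2]
    unfold n
    omega
  · show a.n1 t + a.n t + gap (zr (zz t)) ≤ a.n1 t' - 1 ∨ a.n1 t' + a.n t' + gap (zr (zz t)) ≤ a.n1 t - 1
    have e1 : cs (a.v0 t) = cs (a.v0 t') := by rw [← z1, ← z1, hz]
    have e2 : a.z t = a.z t' := by rw [← z2, ← z2, hz]
    have := a.sep t ht t' ht' hne e1 e2
    rw [z2]
    unfold n
    omega
  · rintro x ⟨i, j, hj, h | h⟩
    · refine ⟨i, i.2, ?_⟩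
      rw [hvis, ← h]
      exact a.v_zn hcs i.2.le hj
    · refine ⟨i, i.2, ?_⟩
      rw [hvis, ← h]
      exact a.w_zn hcs i.2.le hj
  · show ∃ s ∈ Y.W kk (zz t), H22.Cn D.hf.Ed (Vis X (Y.W kk) (zz t) (a.n1 t - 1) (a.n1 t + a.n t)) x
        ((X.C (zz t)).Z (a.n1 t - 1) s 0) ∨
      H22.Cn D.hf.Ed (Vis X (Y.W kk) (zz t) (a.n1 t - 1) (a.n1 t + a.n t)) x
        ((X.C (zz t)).Z (a.n1 t + a.n t) s ((X.C (zz t)).h (a.n1 t + a.n t) s))
    rw [hvis] at hx ⊢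
    obtain ⟨s, hs, h2⟩ := a.con hl hii hk0 hk1 hen hcs hm φ hφ hφl hq ht hx
    obtain ⟨s0, h3, h4⟩ := Y.lift' h0 h1 (z2 t) s (by rw [z1]; exact hs)
    refine ⟨s0, h3, ?_⟩
    rw [(h4 _).1, (h4 _).2, (h4 _).2]
    exact h2
  · obtain ⟨t, ht, h⟩ := a.all k
    exact ⟨t, ht, by rw [z1]; exact h⟩
  · have h2 := D.ed_link ⟨t, by omega⟩
    rw [D.e_next, hgi ⟨t, by omega⟩ ht] at h2
    have h3 : a.v0 (t + 1) = (a.K t).w (a.n t - 1) * B.q (a.th t) := a.next t ht.le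
    rw [h3]
    exact h2
  · show D.y ⟨3 * m - 1, hlast⟩ * B.q (D.g ⟨3 * m - 1, hlast⟩) = a.v0 0
    rw [hgl, hφ]
    exact mul_inv_cancel_left _ _
  · refine D.dart (P := fun b => B.q b ∈ A) (i₀ := ⟨3 * m - 1, hlast⟩) ?_ (hA _) ?_ ?_
    · intro x b hb
      obtain ⟨i, rfl⟩ := F_range hl hii hb
      exact hA i
    · show B.q (B.inv (l .t)) ∈ A
      rw [hi]
      exact hA _
    · intro i hne
      have h2 : (i : ℕ) + 1 < 3 * m := by
        have := i.2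
        have : (i : ℕ) ≠ 3 * m - 1 := fun h => hne (Fin.ext h)
        omega
      rw [hgi i h2]
      exact ⟨a.thA _ i.2, hgA _ i.2⟩
  · show ((a.K (3 * m - 1)).w (a.n (3 * m - 1) - 1))⁻¹ * a.v0 (3 * m) ∈ A
    have h2 : a.v0 (3 * m - 1 + 1) = (a.K (3 * m - 1)).w (a.n (3 * m - 1) - 1) * B.q (a.th (3 * m - 1)) :=
      a.next (3 * m - 1) (by omega)
    rw [Nat.sub_add_cancel (by omega)] at h2
    rw [h2, inv_mul_cancel_left]
    exact a.thA _ hlast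

end fin

end Vts

end

end Pool.Agent.Lib.MP_688fd0_co.SQ5.H85
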