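import Pool.Agent.Lib.MP_688fd0_co.SQ5.H12.Plan
import Pool.Agent.Lib.MP_688fd0_co.SQ5.H85.ThrX

/-!
FT, row THRR (helper85): helper12's `Plan` gives `Vts`, and with `SubC` helper62's `ThrR`.
-/

set_option autoImplicit false

namespace Pool.Agent.Lib.MP_688fd0_co.SQ5.H85

open Function Pool.Agent.Lib.MP_688fd0_co.OSF Pool.Agent.Lib.MP_688fd0_co.SQ5.H76
open Pool.Agent.Lib.MP_688fd0_co.SQ5.H12 Pool.Agent.Lib.MP_688fd0_co.SQ5.FT Pool.Agent.Lib.MP_688fd0_co.SQ5.H95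

universe v

variable {Q : Type} [Group Q] {B : Lb.{0, v} Q} {l : L3 → B.L} {L : AddSubgroup (ℤ × ℤ)} {M R : ℕ} {dc : ℕ → ℤ}
  {spc : ℕ → Prop} {G : ℤ} {g : Geo L M R dc spc G} {m0 : ℕ} {hw : ℤ → ℕ} {c : Cov B l L}
  {hi : ∀ i, B.inv (l i) = l i} {H : Geo.Mn g m0 hw} {G0 : Subgroup Q} {A : Set Q} {kk u gap pd m : ℕ}

theorem cs_G0 (hG : ∀ i, B.q (l i) ∈ G0) (x : Q) (i : L3) : ((x * B.q (l i) : Q) : Q ⧸ G0) = (x : Q ⧸ G0) := by
  rw [QuotientGroup.eq]
  have e : (x * B.q (l i))⁻¹ * x = (B.q (l i))⁻¹ := by group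
  rw [e]
  exact G0.inv_mem (hG i)

/-- The list of the visits. -/
theorem exists_vts (P : Plan c hi H G0 A kk u gap pd m) (hG : ∀ i, B.q (l i) ∈ G0)
    (lab : ∀ x ∈ A, ∃ b : B.L, B.q b = x) :
    Nonempty (Vts H c hi (fun x => (x : Q ⧸ G0)) A kk u m (fun _ => gap) (fun z => g.rE z - pd)) := by
  choose th hth using fun t => lab (P.gl t) (P.glA t)
  exact ⟨{ z := P.z
           n1 := P.n1
           e0 := P.e0
           i := P.i
           j := P.j
           x := P.x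
           v0 := P.v0
           hv0 := P.hv0
           th := th
           z0 := fun t => (P.run t).1
           z1 := fun t => (P.run t).2
           j1 := P.j_le
           e2 := P.e0_ge
           e3 := P.e0_le
           good := fun t ht _ => P.good t ht
           bot := P.lo
           top := fun t ht => by
             have := P.hi t ht
             show P.n1 t + (P.x t * u + P.j t) + 1 + gap ≤ g.rE (P.z t) - pd
             omega
           sep := P.sep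
           next := fun t ht => by rw [hth]; exact P.next t ht
           thA := fun t _ => by rw [hth]; exact P.glA t
           thl := fun t _ i h => P.glN t (by rw [← hth, h]; exact hG i)
           per := P.per
           all := P.all }⟩

/-- THE THREAD from the plan. -/
theorem thrR_of_plan (P : Plan c hi H G0 A kk u gap pd m) (hG : ∀ i, B.q (l i) ∈ G0)
    (lab : ∀ x ∈ A, ∃ b : B.L, B.q b = x) (hl : Injective l) (hii : ∀ x, B.inv (B.inv x) = x) (hk0 : 2 ≤ (kk : ℤ) + 1)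
    (hk1 : (kk : ℤ) + 2 ≤ m0) (hq : Injective (qq B l)) {Z : Type} {S : Z → Type} {N : Z → ℕ}
    {X : Rgs (g.F c hl hi hii) Z S N} {ξ : Z → Q ⧸ G0} {zr : Z → ℤ} {κ0 κ1 : ℤ}
    (Y : SubC H c κ0 κ1 (fun x => (x : Q ⧸ G0)) X ξ zr) (h0 : κ0 ≤ (kk : ℤ) + 1) (h1 : (kk : ℤ) + 2 ≤ κ1)
    (hN : ∀ z, g.rE (zr z) ≤ N z * (X.l z + 1) + pd) (hA : ∀ i, B.q (l i) ∈ A) (hsym : ∀ x ∈ A, x⁻¹ ∈ A)
    (fic : ∀ x : Q, x ≠ 1 → ∃ φ : B.L, B.q φ = x ∧ ∀ i, φ ≠ l i) :
    Nonempty (ThrR A X (Y.W kk) (fun _ => gap) ξ) := by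
  obtain ⟨a⟩ := exists_vts P hG lab
  refine a.exists_thrR hl hii hk0 hk1 (fun z => Nat.sub_le _ _) (cs_G0 hG) Y hq h0 h1 (fun z => ?_) hA hsym P.m2 fic
  have := hN z
  show g.rE (zr z) - pd ≤ N z * (X.l z + 1)
  omega

end Pool.Agent.Lib.MP_688fd0_co.SQ5.H85
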