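import Pool.Agent.Lib.MP_688fd0_co.SQ5.H12.Alt

/-!
THREAD (helper85): a closed thread given by its visits.

`V` = the visits, `ρ` = the next visit (a permutation of `V`). The visit `i` starts at the vertex `e i`; its segment has the
letters `l i 0, .., l i (n i - 1)`: the `F`-edges `v i j - w i j` with the label `l i j` are removed, the `t`-edges
`w i j - v i (j + 1)` are added; at the end `w i (n i - 1)` is joined to `e (ρ i)` by an edge with the label `g i`. (The last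
edge of an open thread is fictitious: its label belongs to the group, but not to the connection set.)
-/

set_option autoImplicit false

namespace Pool.Agent.Lib.MP_688fd0_co.SQ5.H85

open Function Pool.Agent.Lib.MP_688fd0_co.OSF H95 H12

universe u v w

/-! ### The suspension of a permutation -/

section susp

variable {V : Type w} (ρ : Equiv.Perm V) (n : V → ℕ) (hn : ∀ i, 0 < n i)

/-- Forward. -/
def sf (p : Σ i, Fin (n i)) : Σ i, Fin (n i) :=
  if h : (p.2 : ℕ) + 1 < n p.1 then ⟨p.1, ⟨p.2 + 1, h⟩⟩ else ⟨ρ p.1, ⟨0, hn _⟩⟩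

/-- Backward. -/
def sb (p : Σ i, Fin (n i)) : Σ i, Fin (n i) :=
  if (p.2 : ℕ) = 0 then ⟨ρ.symm p.1, ⟨n (ρ.symm p.1) - 1, Nat.sub_lt (hn _) Nat.one_pos⟩⟩
  else ⟨p.1, ⟨p.2 - 1, lt_of_le_of_lt (Nat.sub_le _ _) p.2.2⟩⟩

theorem sf_lt {i : V} {j : ℕ} (hj : j < n i) (h : j + 1 < n i) : sf ρ n hn ⟨i, ⟨j, hj⟩⟩ = ⟨i, ⟨j + 1, h⟩⟩ := dif_pos h

theorem sf_last {i : V} {j : ℕ} (hj : j < n i) (h : ¬ j + 1 < n i) :
    sf ρ n hn ⟨i, ⟨j, hj⟩⟩ = ⟨ρ i, ⟨0, hn _⟩⟩ := dif_neg h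

theorem sb_zero {i : V} (hj : 0 < n i) :
    sb ρ n hn ⟨i, ⟨0, hj⟩⟩ = ⟨ρ.symm i, ⟨n (ρ.symm i) - 1, Nat.sub_lt (hn _) Nat.one_pos⟩⟩ := if_pos rfl

theorem sb_succ {i : V} {j : ℕ} (hj : j + 1 < n i) :
    sb ρ n hn ⟨i, ⟨j + 1, hj⟩⟩ = ⟨i, ⟨j, by omega⟩⟩ := if_neg (Nat.succ_ne_zero j)

/-- The suspension of a permutation: `(i, j) ↦ (i, j + 1)`, `(i, n i - 1) ↦ (ρ i, 0)`. -/
def susp : Equiv.Perm (Σ i, Fin (n i)) where
  toFun := sf ρ n hn
  invFun := sb ρ n hn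
  left_inv := by
    rintro ⟨i, j, hj⟩
    by_cases h : j + 1 < n i
    · rw [sf_lt ρ n hn hj h, sb_succ]
    · have h1 : j = n i - 1 := by omega
      subst h1
      rw [sf_last ρ n hn hj h, sb_zero]
      have h2 : ∀ i' (h' : i' = i) (h3 : n i' - 1 < n i'), (⟨i', ⟨n i' - 1, h3⟩⟩ : Σ i, Fin (n i)) = ⟨i, ⟨n i - 1, hj⟩⟩ := by
        rintro _ rfl _; rfl
      exact h2 _ (ρ.symm_apply_apply i) _
  right_inv := by
    rintro ⟨i, j, hj⟩
    cases j with
    | zero =>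
      rw [sb_zero, sf_last _ _ _ _ (by omega)]
      have h2 : ∀ i' (h' : i' = i) (h3 : 0 < n i'), (⟨i', ⟨0, h3⟩⟩ : Σ i, Fin (n i)) = ⟨i, ⟨0, hj⟩⟩ := by
        rintro _ rfl _; rfl
      exact h2 _ (ρ.apply_symm_apply i) _
    | succ j => rw [sb_succ, sf_lt ρ n hn _ hj]

theorem susp_lt {i : V} {j : ℕ} (hj : j < n i) (h : j + 1 < n i) :
    susp ρ n hn ⟨i, ⟨j, hj⟩⟩ = ⟨i, ⟨j + 1, h⟩⟩ := sf_lt ρ n hn hj h

theorem susp_last {i : V} {j : ℕ} (hj : j < n i) (h : ¬ j + 1 < n i) :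
    susp ρ n hn ⟨i, ⟨j, hj⟩⟩ = ⟨ρ i, ⟨0, hn _⟩⟩ := sf_last ρ n hn hj h

end susp

/-! ### The vertices of a visit -/

section visit

variable {G : Type u} [Group G] {B : Lb.{u, v} G}

/-- The first ends of the cuts: `v 0 = e`, `v (j + 1) = v j l_j t`. -/
def vv (t : B.L) (e : G) (l : ℕ → B.L) : ℕ → G
  | 0 => e
  | j + 1 => vv t e l j * B.q (l j) * B.q t

/-- The second ends of the cuts: `w j = v j l_j`. -/
def ww (t : B.L) (e : G) (l : ℕ → B.L) (j : ℕ) : G := vv t e l j * B.q (l j)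

theorem vv_succ (t : B.L) (e : G) (l : ℕ → B.L) (j : ℕ) : vv t e l (j + 1) = ww t e l j * B.q t := rfl

/-- Left translations. -/
theorem vv_mul (t : B.L) (x e : G) (l : ℕ → B.L) (j : ℕ) : vv t (x * e) l j = x * vv t e l j := by
  induction j with
  | zero => rfl
  | succ j ih =>
    show vv t (x * e) l j * B.q (l j) * B.q t = x * (vv t e l j * B.q (l j) * B.q t)
    rw [ih]; simp only [mul_assoc]

theorem ww_mul (t : B.L) (x e : G) (l : ℕ → B.L) (j : ℕ) : ww t (x * e) l j = x * ww t e l j := by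
  unfold ww; rw [vv_mul, mul_assoc]

/-- The vertices of a visit from the middle. -/
theorem vv_add (t : B.L) (e : G) (l : ℕ → B.L) (i j : ℕ) :
    vv t e l (i + j) = vv t (vv t e l i) (fun m => l (i + m)) j := by
  induction j with
  | zero => rfl
  | succ j ih =>
    show vv t e l (i + j) * B.q (l (i + j)) * B.q t = vv t (vv t e l i) (fun m => l (i + m)) j * B.q (l (i + j)) * B.q t
    rw [ih]

/-- Only the first letters matter. -/
theorem vv_congr {t : B.L} {e : G} {l l' : ℕ → B.L} {j : ℕ} (h : ∀ i < j, l i = l' i) : vv t e l j = vv t e l' j := by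
  induction j with
  | zero => rfl
  | succ j ih =>
    show vv t e l j * B.q (l j) * B.q t = vv t e l' j * B.q (l' j) * B.q t
    rw [ih fun i hi => h i (by omega), h j (by omega)]

/-- The closed thread. -/
structure Thd (F : HF B) (V : Type w) where
  ρ : Equiv.Perm V
  t : B.L
  n : V → ℕ
  v : V → ℕ → G
  w : V → ℕ → G
  l : V → ℕ → B.L
  g : V → B.L
  npos : ∀ i, 0 < n i
  w_eq : ∀ i j, j < n i → w i j = v i j * B.q (l i j)
  v_succ : ∀ i j, j + 1 < n i → v i (j + 1) = w i j * B.q t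
  next : ∀ i, v (ρ i) 0 = w i (n i - 1) * B.q (g i)
  inj : ∀ i j i' j', j < n i → j' < n i' → v i j = v i' j' → i = i' ∧ j = j'
  winj : ∀ i j i' j', j < n i → j' < n i' → w i j = w i' j' → i = i' ∧ j = j'
  vw : ∀ i j i' j', j < n i → j' < n i' → v i j ≠ w i' j'
  lam : ∀ i j, j < n i → l i j ∈ F.H (v i j)
  tmu : ∀ i j, j + 1 < n i → t ∉ F.H (w i j)
  gmu : ∀ i, g i ∉ F.H (w i (n i - 1))

namespace Thd

variable {F : HF B} {V : Type w} (a : Thd F V)

/-- The first vertex of a visit. -/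
def e (i : V) : G := a.v i 0

/-- The last vertex of a visit. -/
def y (i : V) : G := a.w i (a.n i - 1)

theorem e_next (i : V) : a.e (a.ρ i) = a.y i * B.q (a.g i) := a.next i

/-- The alternating cycles. -/
def alt : Alt F (Σ i, Fin (a.n i)) where
  v p := a.v p.1 p.2
  w p := a.w p.1 p.2
  lam p := a.l p.1 p.2
  mu p := if (p.2 : ℕ) + 1 < a.n p.1 then a.t else a.g p.1
  nx := susp a.ρ a.n a.npos
  w_eq p := a.w_eq _ _ p.2.2
  v_nx := by
    rintro ⟨i, j, hj⟩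
    by_cases h : j + 1 < a.n i
    · rw [susp_lt _ _ _ hj h, if_pos h]
      exact a.v_succ i j h
    · rw [susp_last _ _ _ hj h, if_neg h]
      have h1 : j = a.n i - 1 := by omega
      subst h1
      exact a.next i
  v_inj := by
    rintro ⟨i, j, hj⟩ ⟨i', j', hj'⟩ h
    obtain ⟨h1, h2⟩ := a.inj i j i' j' hj hj' h
    subst h1; subst h2; rfl
  w_inj := by
    rintro ⟨i, j, hj⟩ ⟨i', j', hj'⟩ h
    obtain ⟨h1, h2⟩ := a.winj i j i' j' hj hj' h
    subst h1; subst h2; rfl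
  vw p p' := a.vw _ _ _ _ p.2.2 p'.2.2
  lam_mem p := a.lam _ _ p.2.2
  mu_mem := by
    rintro ⟨i, j, hj⟩
    by_cases h : j + 1 < a.n i
    · rw [if_pos h]
      exact a.tmu i j h
    · rw [if_neg h]
      have h1 : j = a.n i - 1 := by omega
      subst h1
      exact a.gmu i

/-- The changed 2-factor. -/
noncomputable def hf : HF B := a.alt.hf

/-- The touched vertices. -/
def T : Set G := {x | ∃ i j, j < a.n i ∧ (a.v i j = x ∨ a.w i j = x)}

theorem mem_T {x : G} : x ∈ a.T ↔ x ∈ a.alt.T := by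
  constructor
  · rintro ⟨i, j, hj, h | h⟩
    · exact Or.inl ⟨⟨i, ⟨j, hj⟩⟩, h⟩
    · exact Or.inr ⟨⟨i, ⟨j, hj⟩⟩, h⟩
  · rintro (⟨p, h⟩ | ⟨p, h⟩)
    · exact ⟨p.1, p.2, p.2.2, Or.inl h⟩
    · exact ⟨p.1, p.2, p.2.2, Or.inr h⟩

theorem v_mem {i : V} {j : ℕ} (hj : j < a.n i) : a.v i j ∈ a.T := ⟨i, j, hj, Or.inl rfl⟩

theorem w_mem {i : V} {j : ℕ} (hj : j < a.n i) : a.w i j ∈ a.T := ⟨i, j, hj, Or.inr rfl⟩

/-- Nothing is changed outside of `T`. -/
theorem off {x : G} (h : x ∉ a.T) : a.hf.H x = F.H x := a.alt.hf_off fun h' => h (a.mem_T.2 h')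

/-- The new edges inside a visit. -/
theorem ed_hand {i : V} {j : ℕ} (h : j + 1 < a.n i) : a.hf.Ed (a.w i j) (a.v i (j + 1)) := by
  have h1 := a.alt.ed_new ⟨i, ⟨j, by omega⟩⟩
  have h2 : a.alt.nx ⟨i, ⟨j, by omega⟩⟩ = ⟨i, ⟨j + 1, h⟩⟩ := susp_lt _ _ _ _ h
  rw [h2] at h1
  exact h1

/-- The edge to the next visit. -/
theorem ed_link (i : V) : a.hf.Ed (a.y i) (a.e (a.ρ i)) := by
  have hn := a.npos i
  have h1 := a.alt.ed_new ⟨i, ⟨a.n i - 1, by omega⟩⟩
  have h2 : a.alt.nx ⟨i, ⟨a.n i - 1, by omega⟩⟩ = ⟨a.ρ i, ⟨0, a.npos _⟩⟩ := susp_last _ _ _ _ (by omega)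
  rw [h2] at h1
  exact h1

/-- The label of the edge to the next visit. -/
theorem g_mem (i : V) : a.g i ∈ a.hf.H (a.y i) := by
  have hn := a.npos i
  have h1 := a.alt.H'_w ⟨i, ⟨a.n i - 1, by omega⟩⟩
  show _ ∈ a.alt.H' _
  have h2 : a.alt.w ⟨i, ⟨a.n i - 1, by omega⟩⟩ = a.y i := rfl
  rw [h2] at h1
  rw [h1]
  right
  show a.g i = if a.n i - 1 + 1 < a.n i then a.t else a.g i
  rw [if_neg (by omega)]

/-- The old edges which are not cut. -/
theorem ed_old {x x' : G} (h : F.Ed x x') (h1 : ∀ i j, j < a.n i → ¬ (a.v i j = x ∧ a.w i j = x'))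
    (h2 : ∀ i j, j < a.n i → ¬ (a.w i j = x ∧ a.v i j = x')) : a.hf.Ed x x' :=
  a.alt.ed_old h (fun p => h1 p.1 p.2 p.2.2) fun p => h2 p.1 p.2 p.2.2

/-- The local form: inside a set `Z` which meets only the visit `i`, the old edges which are not cut by this visit. -/
theorem ed_zone {Z : Set G} {i : V} (hZ : ∀ i' j, j < a.n i' → i' ≠ i → a.v i' j ∉ Z) {x x' : G} (hx : x ∈ Z)
    (hx' : x' ∈ Z) (h : F.Ed x x') (h1 : ∀ j < a.n i, ¬ (a.v i j = x ∧ a.w i j = x'))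
    (h2 : ∀ j < a.n i, ¬ (a.w i j = x ∧ a.v i j = x')) : a.hf.Ed x x' := by
  refine a.ed_old h ?_ ?_
  · rintro i' j hj ⟨h3, h4⟩
    by_cases h5 : i' = i
    · subst h5; exact h1 j hj ⟨h3, h4⟩
    · exact hZ i' j hj h5 (h3 ▸ hx)
  · rintro i' j hj ⟨h3, h4⟩
    by_cases h5 : i' = i
    · subst h5; exact h2 j hj ⟨h3, h4⟩
    · exact hZ i' j hj h5 (h4 ▸ hx')

/-- The labels of the new 2-factor. -/
theorem label {x : G} {h : B.L} (hx : h ∈ a.hf.H x) : h ∈ F.H x ∨ h = a.t ∨ h = B.inv a.t ∨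
    (∃ i, a.y i = x ∧ h = a.g i) ∨ ∃ i, a.e (a.ρ i) = x ∧ h = B.inv (a.g i) := by
  change h ∈ a.alt.H' x at hx
  by_cases hv : ∃ p, a.alt.v p = x
  · obtain ⟨p, rfl⟩ := hv
    rw [a.alt.H'_v] at hx
    rcases hx with h1 | h1
    · exact Or.inl h1.1
    · set q := a.alt.nx.symm p with hq
      have hqp : a.alt.nx q = p := a.alt.nx.apply_symm_apply p
      obtain ⟨i, j, hj⟩ := q
      by_cases h2 : j + 1 < a.n i
      · have h3 : a.alt.mu ⟨i, ⟨j, hj⟩⟩ = a.t := if_pos h2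
        rw [h3] at h1
        exact Or.inr (Or.inr (Or.inl h1))
      · have h3 : a.alt.mu ⟨i, ⟨j, hj⟩⟩ = a.g i := if_neg h2
        have h4 : a.alt.nx ⟨i, ⟨j, hj⟩⟩ = ⟨a.ρ i, ⟨0, a.npos _⟩⟩ := susp_last _ _ _ hj h2
        rw [h3] at h1
        rw [h4] at hqp
        refine Or.inr (Or.inr (Or.inr (Or.inr ⟨i, ?_, h1⟩)))
        rw [← hqp]
        rfl
  · by_cases hw : ∃ p, a.alt.w p = x
    · obtain ⟨⟨i, j, hj⟩, rfl⟩ := hw
      rw [a.alt.H'_w] at hx
      rcases hx with h1 | h1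
      · exact Or.inl h1.1
      · by_cases h2 : j + 1 < a.n i
        · have h3 : a.alt.mu ⟨i, ⟨j, hj⟩⟩ = a.t := if_pos h2
          rw [h3] at h1
          exact Or.inr (Or.inl h1)
        · have h3 : a.alt.mu ⟨i, ⟨j, hj⟩⟩ = a.g i := if_neg h2
          rw [h3] at h1
          refine Or.inr (Or.inr (Or.inr (Or.inl ⟨i, ?_, h1⟩)))
          have h5 : j = a.n i - 1 := by omega
          subst h5
          rfl
    · rw [a.alt.H'_o (fun p hp => hv ⟨p, hp⟩) fun p hp => hw ⟨p, hp⟩] at hx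
      exact Or.inl hx

/-- The darts of the closing edge. -/
def d₀ (i : V) : a.hf.X := ⟨(a.y i, a.g i), a.g_mem i⟩

/-- All darts except those of the edge from `y i₀` to `e (ρ i₀)` have labels with a property `P`. -/
theorem dart {P : B.L → Prop} {i₀ : V} (hP : ∀ x, ∀ h ∈ F.H x, P h) (ht : P a.t) (ht' : P (B.inv a.t))
    (hg : ∀ i, i ≠ i₀ → P (a.g i) ∧ P (B.inv (a.g i))) :
    ∀ d : a.hf.X, d ≠ a.d₀ i₀ → d ≠ a.hf.pr (a.d₀ i₀) → P d.1.2 := by
  rintro ⟨⟨x, h⟩, hx⟩ h1 h2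
  have hx' : h ∈ a.hf.H x := hx
  rcases a.label hx' with h3 | h3 | h3 | ⟨i, h3, h4⟩ | ⟨i, h3, h4⟩
  · exact hP _ _ h3
  · show P h
    rw [h3]; exact ht
  · show P h
    rw [h3]; exact ht'
  · by_cases hi : i = i₀
    · subst hi
      exact (h1 (Subtype.ext (Prod.ext h3.symm h4))).elim
    · show P h
      rw [h4]; exact (hg i hi).1
  · by_cases hi : i = i₀
    · subst hi
      refine (h2 (Subtype.ext (Prod.ext ?_ h4))).elim
      show x = a.y i * B.q (a.g i)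
      rw [← a.e_next]
      exact h3.symm
    · show P h
      rw [h4]; exact (hg i hi).2

/-- The closing edge is not inside of a set which does not contain `y i`. -/
theorem y_mem (i : V) : a.y i ∈ a.T := a.w_mem (Nat.sub_lt (a.npos i) Nat.one_pos)

theorem e_mem (i : V) : a.e i ∈ a.T := a.v_mem (a.npos i)

end Thd

/-- An open thread with the visits `0, .., M - 1`, closed by an edge with the label `φ`. -/
def Thd.fin {F : HF B} (M : ℕ) (hM : 0 < M) (t : B.L) (n : ℕ → ℕ) (v w : ℕ → ℕ → G) (l : ℕ → ℕ → B.L) (th : ℕ → B.L)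
    (φ : B.L) (npos : ∀ i < M, 0 < n i) (w_eq : ∀ i < M, ∀ j < n i, w i j = v i j * B.q (l i j))
    (v_succ : ∀ i < M, ∀ j, j + 1 < n i → v i (j + 1) = w i j * B.q t)
    (next : ∀ i, i + 1 < M → v (i + 1) 0 = w i (n i - 1) * B.q (th i))
    (close : v 0 0 = w (M - 1) (n (M - 1) - 1) * B.q φ)
    (inj : ∀ i < M, ∀ j < n i, ∀ i' < M, ∀ j' < n i', v i j = v i' j' → i = i' ∧ j = j')
    (winj : ∀ i < M, ∀ j < n i, ∀ i' < M, ∀ j' < n i', w i j = w i' j' → i = i' ∧ j = j')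
    (vw : ∀ i < M, ∀ j < n i, ∀ i' < M, ∀ j' < n i', v i j ≠ w i' j')
    (lam : ∀ i < M, ∀ j < n i, l i j ∈ F.H (v i j))
    (tmu : ∀ i < M, ∀ j, j + 1 < n i → t ∉ F.H (w i j))
    (gmu : ∀ i, i + 1 < M → th i ∉ F.H (w i (n i - 1)))
    (φmu : φ ∉ F.H (w (M - 1) (n (M - 1) - 1))) : Thd F (Fin M) where
  ρ := finRotate M
  t := t
  n i := n i
  v i := v i
  w i := w i
  l i := l i
  g i := if (i : ℕ) + 1 < M then th i else φ
  npos i := npos i i.2
  w_eq i j hj := w_eq i i.2 j hj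
  v_succ i j hj := v_succ i i.2 j hj
  next i := by
    obtain ⟨m, rfl⟩ : ∃ m, M = m + 1 := ⟨M - 1, by omega⟩
    by_cases h : (i : ℕ) + 1 < m + 1
    · have h1 : ((finRotate (m + 1) i : Fin (m + 1)) : ℕ) = i + 1 := by
        rw [coe_finRotate_of_ne_last]
        intro h2
        rw [h2, Fin.val_last] at h
        omega
      rw [if_pos h, h1]
      exact next i h
    · have h0 : i = Fin.last m := Fin.ext (by rw [Fin.val_last]; have := i.2; omega)
      subst h0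
      rw [if_neg h, finRotate_last]
      exact close
  inj i j i' j' hj hj' h := by
    obtain ⟨h1, h2⟩ := inj i i.2 j hj i' i'.2 j' hj' h
    exact ⟨Fin.ext h1, h2⟩
  winj i j i' j' hj hj' h := by
    obtain ⟨h1, h2⟩ := winj i i.2 j hj i' i'.2 j' hj' h
    exact ⟨Fin.ext h1, h2⟩
  vw i j i' j' hj hj' := vw i i.2 j hj i' i'.2 j' hj'
  lam i j hj := lam i i.2 j hj
  tmu i j hj := tmu i i.2 j hj
  gmu i := by
    by_cases h : (i : ℕ) + 1 < M
    · rw [if_pos h]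
      exact gmu i h
    · have h0 : (i : ℕ) = M - 1 := by have := i.2; omega
      rw [if_neg h, h0]
      exact φmu

end visit

/-! ### Fictitious labels -/

section fict

variable {G : Type u} [Group G]

/-- The labels of `B` and all elements `≠ 1` of the group as fictitious labels. -/
def LbF (B : Lb.{u, v} G) : Lb.{u, max u v} G where
  L := B.L ⊕ {g : G // g ≠ 1}
  q := Sum.elim B.q Subtype.val
  inv := Sum.map B.inv fun g => ⟨g.1⁻¹, inv_ne_one.2 g.2⟩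
  q_inv := by
    rintro (g | g)
    · exact B.q_inv g
    · rfl
  ne_one := by
    rintro (g | g)
    · exact B.ne_one g
    · exact g.2

/-- The same 2-factor with more labels. -/
def HF.up {B : Lb.{u, v} G} (F : HF B) : HF (LbF B) where
  H x := Sum.inl '' F.H x
  ex x := by
    obtain ⟨g, h, hne, hl⟩ := F.ex x
    refine ⟨Sum.inl g, Sum.inl h, fun he => hne (Sum.inl_injective he), ?_⟩
    rintro (l | l)
    · constructor
      · rintro ⟨l', h1, h2⟩
        rw [← Sum.inl_injective h2]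
        rcases (hl _).1 h1 with rfl | rfl
        · exact Or.inl rfl
        · exact Or.inr rfl
      · rintro (h1 | h1)
        · exact ⟨l, (hl _).2 (Or.inl (Sum.inl_injective h1)), rfl⟩
        · exact ⟨l, (hl _).2 (Or.inr (Sum.inl_injective h1)), rfl⟩
    · constructor
      · rintro ⟨l', _, h2⟩
        exact absurd h2 (by simp)
      · rintro (h1 | h1)
        · exact absurd h1 (by simp)
        · exact absurd h1 (by simp)
  sym := by
    rintro x _ ⟨g, hg, rfl⟩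
    exact ⟨B.inv g, F.sym x g hg, rfl⟩
  ii := by
    rintro (g | g)
    · exact congrArg Sum.inl (F.ii g)
    · exact congrArg Sum.inr (Subtype.ext (inv_inv g.1))

theorem up_ed {B : Lb.{u, v} G} {F : HF B} {x y : G} : (HF.up F).Ed x y ↔ F.Ed x y := by
  constructor
  · rintro ⟨_, ⟨g, hg, rfl⟩, h⟩
    exact ⟨g, hg, h⟩
  · rintro ⟨g, hg, h⟩
    exact ⟨Sum.inl g, ⟨g, hg, rfl⟩, h⟩

end fict

end Pool.Agent.Lib.MP_688fd0_co.SQ5.H85
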