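import Pool.Agent.Lib.MP_688fd0_co.SQ5.H12.VPlane
import Pool.Agent.Lib.MP_688fd0_co.SQ5.FT.Data
import Pool.Agent.Lib.MP_688fd0_co.SQ5.H85.Thr

/-!
FT, row THRR (helper85): the list of the visits (`Vts`) of a thread over the runs of helper76, and its thread `Vts.thd`.

`cs x` = the coset of `x`; visit `t`: run `z t`, first block `n1 t`, start `v0 t` at the coordinate `e0 t` of the wide strip `kk`,
`x t` periods of `u` aligned levels, then `j t + 1` levels with the letter `i t`; then the letter `th t` to the next visit.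
-/

set_option autoImplicit false

namespace Pool.Agent.Lib.MP_688fd0_co.SQ5.H85

open Function Pool.Agent.Lib.MP_688fd0_co.OSF Pool.Agent.Lib.MP_688fd0_co.SQ5.H76
open Pool.Agent.Lib.MP_688fd0_co.SQ5.H12 Pool.Agent.Lib.MP_688fd0_co.SQ5.FT Pool.Agent.Lib.MP_688fd0_co.SQ5.H95

universe v

section

variable {Q : Type} [Group Q] {B : Lb.{0, v} Q} {l : L3 → B.L} {L : AddSubgroup (ℤ × ℤ)} {M R : ℕ} {dc : ℕ → ℤ}
  {spc : ℕ → Prop} {G : ℤ} {g : Geo L M R dc spc G} {m0 : ℕ} {hw : ℤ → ℕ}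

/-- The local model at the block `n1` of the run `z`. -/
noncomputable abbrev stz (H : Geo.Mn g m0 hw) (c : Cov B l L) (hi : ∀ i, B.inv (l i) = l i) (kk z : ℤ) (n1 : ℕ) :
    Str Q := str c hi (H.bd z) (g.rs z) (g.rp z) kk n1

/-- THE LIST OF THE VISITS. -/
structure Vts (H : Geo.Mn g m0 hw) (c : Cov B l L) (hi : ∀ i, B.inv (l i) = l i) {Ξ : Type} (cs : Q → Ξ) (A : Set Q)
    (kk : ℤ) (u m : ℕ) (gap en : ℤ → ℕ) where
  z : ℕ → ℤ
  n1 : ℕ → ℕ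
  e0 : ℕ → ℤ
  i : ℕ → Bool
  j : ℕ → ℕ
  x : ℕ → ℕ
  v0 : ℕ → Q
  hv0 : ∀ t, (stz H c hi kk (z t) (n1 t)).Ov (v0 t) ((stz H c hi kk (z t) (n1 t)).wh 0 (e0 t))
  th : ℕ → B.L
  z0 : ∀ t, 0 ≤ z t
  z1 : ∀ t, z t < g.w.Et
  j1 : ∀ t, j t = 0 ∨ j t = 1
  e2 : ∀ t ≤ 3 * m, 2 ≤ e0 t
  e3 : ∀ t ≤ 3 * m, e0 t + 2 ≤ hw kk
  good : ∀ t ≤ 3 * m, ∀ _ : DecidableEq (stz H c hi kk (z t) (n1 t)).S,
    Str.Vis.Good (v0 t) (e0 t) (hv0 t) u (i t) (j t) (x t)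
  bot : ∀ t ≤ 3 * m, gap (z t) + 1 ≤ n1 t
  top : ∀ t ≤ 3 * m, n1 t + (x t * u + j t) + 1 + gap (z t) ≤ en (z t)
  sep : ∀ t ≤ 3 * m, ∀ t' ≤ 3 * m, t ≠ t' → cs (v0 t) = cs (v0 t') → z t = z t' →
    n1 t + (x t * u + j t) + gap (z t) + 2 ≤ n1 t' ∨ n1 t' + (x t' * u + j t') + gap (z t) + 2 ≤ n1 t
  next : ∀ t, t + 1 ≤ 3 * m →
    v0 (t + 1) = (Str.Vis.visK (v0 t) (e0 t) (hv0 t) u (i t) (x t)).w (x t * u + j t) * B.q (th t)
  thA : ∀ t < 3 * m, B.q (th t) ∈ A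
  thl : ∀ t < 3 * m, ∀ i, th t ≠ l i
  per : ∀ t, t + m ≤ 3 * m → cs (v0 (t + m)) = cs (v0 t)
  all : ∀ k, ∃ t < m, cs (v0 t) = k

/-- The upper end of the cut line. -/
theorem h_cc {c : Cov B l L} {hi : ∀ i, B.inv (l i) = l i} {D : Bd} {s0 ph kk : ℤ} {n1 : ℕ} {κ0 κ1 : ℤ} (H : RunD D s0 ph)
    (h0 : κ0 ≤ kk + 1) (h1 : kk + 2 ≤ κ1) (K : (str c hi D s0 ph kk n1).Vis) {b : ℕ} (hb : n1 ≤ b) :
    (D.chart c s0 κ0 κ1).h b (cc H h0 h1 K b) = 2 * D.hw kk - 1 := by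
  obtain ⟨h, hh, e1, e2⟩ := ln_kap (c := c) (hi := hi) (kk := kk) (n1 := n1) H (K.c (b - n1)).1.1 (b - n1)
  obtain ⟨hL, hR⟩ := Str.Vis.c_strip K (b - n1)
  rw [hL, hR] at e2
  have e3 : (h : ℤ) = D.hw kk := by rw [e2]; show (D.hw kk : ℤ) - 0 = _; ring
  have hbb : s0 + (n1 : ℤ) + ((b - n1 : ℕ) : ℤ) = s0 + b := by omega
  rw [hbb] at e1
  have e4 : h = D.hw kk := by exact_mod_cast e3
  show D.ln (kap kk (K.c (b - n1)).1.1) (s0 + b) = _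
  rw [e1, e4]

namespace Vts

variable {H : Geo.Mn g m0 hw} {c : Cov B l L} {hi : ∀ i, B.inv (l i) = l i} {Ξ : Type} {cs : Q → Ξ} {A : Set Q}
  {kk : ℤ} {u m : ℕ} {gap en : ℤ → ℕ} (a : Vts H c hi cs A kk u m gap en)

/-- The visit `t`. -/
noncomputable def K (t : ℕ) : (stz H c hi kk (a.z t) (a.n1 t)).Vis := Str.Vis.visK (a.v0 t) (a.e0 t) (a.hv0 t) u (a.i t) (a.x t)

/-- The number of levels. -/
def n (t : ℕ) : ℕ := a.x t * u + a.j t + 1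

/-- The chart of the strands at the two walls of the wide strip. -/
noncomputable abbrev Cz (H : Geo.Mn g m0 hw) (c : Cov B l L) (kk z : ℤ) :
    H22.Chart Q (Sd c (H.bd z) (g.rs z) (kk + 1) (kk + 2)) := (H.bd z).chart c (g.rs z) (kk + 1) (kk + 2)

/-- The cut strand. -/
noncomputable def ct (t j : ℕ) : Sd c (H.bd (a.z t)) (g.rs (a.z t)) (kk + 1) (kk + 2) :=
  cc (runD_bd H (a.z t)) le_rfl le_rfl (a.K t) (a.n1 t + j)

theorem hin {t : ℕ} (ht : t ≤ 3 * m) {j : ℕ} (hj : j < a.n t) : 1 ≤ (a.K t).ev j ∧ (a.K t).ev j ≤ (H.bd (a.z t)).hw kk - 1 := by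
  have h := a.j1 t
  unfold n at hj
  exact visK_in (j := a.j t) (a.e2 t ht) (a.e3 t ht) (by omega) j (by omega)

theorem ran {t : ℕ} (ht : t ≤ 3 * m) {j : ℕ} (hj : j < a.n t) : 1 ≤ jj (a.K t) (a.n1 t + j) ∧ jj (a.K t) (a.n1 t + j) + 1 ≤ hw kk := by
  have h := a.hin ht hj
  have e : a.n1 t + j - a.n1 t = j := Nat.add_sub_cancel_left _ _
  have h1 := jj_ran (K := a.K t) (b := a.n1 t + j) (by rw [e]; exact h)
  exact ⟨h1.1, h1.2.1⟩

theorem ran' {t : ℕ} (ht : t ≤ 3 * m) {j : ℕ} (hj : j + 1 < a.n t) : 2 ≤ jj (a.K t) (a.n1 t + j) ∧ jj (a.K t) (a.n1 t + j) + 2 ≤ hw kk := by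
  have e : a.n1 t + j - a.n1 t = j := Nat.add_sub_cancel_left _ _
  have h := a.j1 t
  have h2 := a.e2 t ht
  have h3 := a.e3 t ht
  have h4 := jj_ran (K := a.K t) (b := a.n1 t + j) (by rw [e]; exact a.hin ht (by omega))
  have hj' : j ≤ a.x t * u := by
    unfold n at hj
    generalize a.x t * u = y at hj ⊢
    omega
  have h5 : (a.K t).ev j = a.e0 t := Str.Vis.visK_ev hj'
  rw [e, h5] at h4
  have h6 := h4.2.2
  have h7 : ((H.bd (a.z t)).hw kk : ℤ) = hw kk := rfl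
  rw [h7] at h6
  split_ifs at h6 <;> constructor <;> omega

theorem h_ct (t j : ℕ) : (Cz H c kk (a.z t)).h (a.n1 t + j) (a.ct t j) = 2 * hw kk - 1 :=
  h_cc (runD_bd H (a.z t)) le_rfl le_rfl (a.K t) (Nat.le_add_right _ _)

theorem v_eq {t : ℕ} (ht : t ≤ 3 * m) {j : ℕ} (hj : j < a.n t) :
    (a.K t).v j = (Cz H c kk (a.z t)).Z (a.n1 t + j) (a.ct t j) (2 * jj (a.K t) (a.n1 t + j)) := by
  have e : a.n1 t + j - a.n1 t = j := Nat.add_sub_cancel_left _ _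
  have h := Z_v (H := runD_bd H (a.z t)) (h0 := le_rfl) (h1 := le_rfl) (K := a.K t) (b := a.n1 t + j)
    (Nat.le_add_right _ _) (by rw [e]; exact a.hin ht hj)
  rw [e] at h
  exact h.symm

theorem w_eq {t : ℕ} (ht : t ≤ 3 * m) {j : ℕ} (hj : j < a.n t) : (a.K t).w j = (Cz H c kk (a.z t)).Z (a.n1 t + j) (a.ct t j)
    (if alg (a.K t) (a.n1 t + j) then 2 * jj (a.K t) (a.n1 t + j) - 1 else 2 * jj (a.K t) (a.n1 t + j) + 1) := by
  have e : a.n1 t + j - a.n1 t = j := Nat.add_sub_cancel_left _ _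
  have h := Z_w (H := runD_bd H (a.z t)) (h0 := le_rfl) (h1 := le_rfl) (K := a.K t) (b := a.n1 t + j)
    (Nat.le_add_right _ _) (by rw [e]; exact a.hin ht hj)
  rw [e] at h
  exact h

/-- The label of the cut edge. -/
noncomputable def lb (t j : ℕ) : L3 := if (a.K t).lt j = true then .a else .b

theorem w_v (t j : ℕ) : (a.K t).w j = (a.K t).v j * B.q (l (a.lb t j)) := rfl

theorem v_s (t j : ℕ) : (a.K t).v (j + 1) = (a.K t).w j * B.q (l .t) := rfl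

section coset

variable (hcs : ∀ x i, cs (x * B.q (l i)) = cs x)
include hcs

theorem cs_v (t j : ℕ) : cs ((a.K t).v j) = cs (a.v0 t) := by
  induction j with
  | zero => rfl
  | succ j ih => rw [a.v_s, hcs, a.w_v, hcs, ih]

theorem cs_w (t j : ℕ) : cs ((a.K t).w j) = cs (a.v0 t) := by
  rw [a.w_v, hcs, a.cs_v hcs]

/-- The coset of a strand. -/
theorem cs_lw (b : Bool) (x : Q) (r : ℕ) : cs (x * Bd.lw (qq B l) b r) = cs x := by
  induction r with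
  | zero => rw [Bd.lw_zero, mul_one]
  | succ r ih =>
    rw [Bd.lw_succ, ← mul_assoc]
    exact (hcs _ _).trans ih

theorem cs_pr (D : Bd) (κ s0 : ℤ) (x : Q) (m r : ℕ) : cs (x * D.pos (qq B l) s0 κ m r) = cs x := by
  have key : ∀ m : ℕ, cs (x * D.pos (qq B l) s0 κ m 0) = cs x := by
    intro m
    induction m with
    | zero => rw [Nat.cast_zero, D.pos_zero, mul_one]
    | succ m ih =>
      rw [Nat.cast_add, Nat.cast_one, D.pos_up, ← mul_assoc]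
      have h1 : cs (x * D.pos (qq B l) s0 κ m (D.ln κ (s0 + m)) * qq B l .t) =
        cs (x * D.pos (qq B l) s0 κ m (D.ln κ (s0 + m))) := hcs _ _
      rw [h1]
      have h2 : ∀ r, cs (x * D.pos (qq B l) s0 κ m r) = cs (x * D.pos (qq B l) s0 κ m 0) := by
        intro r
        induction r with
        | zero => rfl
        | succ r ih' =>
          rw [D.pos_succ, ← mul_assoc]
          exact (hcs _ _).trans ih'
      rw [h2, ih]
  have h2 : ∀ r, cs (x * D.pos (qq B l) s0 κ m r) = cs (x * D.pos (qq B l) s0 κ m 0) := by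
    intro r
    induction r with
    | zero => rfl
    | succ r ih' =>
      rw [D.pos_succ, ← mul_assoc]
      exact (hcs _ _).trans ih'
  rw [h2, key]

theorem cs_Z (D : Bd) {s0 κ0 κ1 : ℤ} (m : ℕ) (s : Sd c D s0 κ0 κ1) (r : ℕ) : cs ((D.chart c s0 κ0 κ1).Z m s r) = cs s.1.2 :=
  cs_pr hcs D _ _ _ _ _

end coset

section thread

variable (hl : Injective l) (hii : ∀ x, B.inv (B.inv x) = x)

theorem mem_F' (x : Q) (i : L3) : l i ∈ (g.F c hl hi hii).H x ↔ i ≠ g.mt c x := by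
  show (∃ i', i' ≠ g.mt c x ∧ l i = l i') ↔ _
  constructor
  · rintro ⟨i', h1, h2⟩
    rw [hl h2]
    exact h1
  · intro h1
    exact ⟨i, h1, rfl⟩

theorem F_range {x : Q} {y : B.L} (h : y ∈ (g.F c hl hi hii).H x) : ∃ i, y = l i := by
  obtain ⟨i, -, h⟩ : ∃ i', i' ≠ g.mt c x ∧ y = l i' := h
  exact ⟨i, h⟩

include hi in
theorem mt_Z (H : Geo.Mn g m0 hw) {κ0 κ1 : ℤ} (h0 : 2 ≤ κ0) (h1 : κ1 ≤ m0) (z : ℤ) {m r : ℕ}
    (hm : m ≤ g.rE z) (s : Sd c (H.bd z) (g.rs z) κ0 κ1) (h2 : 0 < r)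
    (h3 : r < ((H.bd z).chart c (g.rs z) κ0 κ1).h m s) :
    g.mt c (((H.bd z).chart c (g.rs z) κ0 κ1).Z m s r) = .t :=
  (H.rg z h0 h1).mt_mid c s.2.1 s.2.2.1 hm (Z_over (H.bd z) c hi m s r) h2 h3

variable (hk0 : 2 ≤ kk + 1) (hk1 : kk + 2 ≤ m0) (hen : ∀ z, en z ≤ g.rE z) (hcs : ∀ x i, cs (x * B.q (l i)) = cs x)

include hen in
theorem blk_le {t : ℕ} (ht : t ≤ 3 * m) {j : ℕ} (hj : j < a.n t) : a.n1 t + j ≤ g.rE (a.z t) := by
  have h1 := a.top t ht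
  have h2 := hen (a.z t)
  unfold n at hj
  omega

include hk0 hk1 hen in
theorem pos_eq {t t' j j' r r' : ℕ} (ht : t ≤ 3 * m) (ht' : t' ≤ 3 * m) (hj : j < a.n t) (hj' : j' < a.n t')
    (hc : cs (a.v0 t) = cs (a.v0 t')) (hr : r ≤ 2 * hw kk - 1) (hr' : r' ≤ 2 * hw kk - 1)
    (h : (Cz H c kk (a.z t)).Z (a.n1 t + j) (a.ct t j) r = (Cz H c kk (a.z t')).Z (a.n1 t' + j') (a.ct t' j') r') :
    t = t' ∧ j = j' ∧ r = r' := by
  have z1 := a.z0 t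
  have z2 := a.z1 t
  have z3 := a.z0 t'
  have z4 := a.z1 t'
  obtain ⟨e1, e2, -, e4⟩ := H.far c hi (z := a.z t) (z' := a.z t') (by omega) (by omega) hk0 hk1 hk0 hk1
    (a.blk_le hen ht hj) (a.blk_le hen ht' hj') (by rw [a.h_ct]; exact hr) (by rw [a.h_ct]; exact hr') h
  have e5 : t = t' := by
    by_contra hne
    have h1 := a.sep t ht t' ht' hne hc e1
    unfold n at hj hj'
    omega
  subst e5
  exact ⟨rfl, by omega, e4⟩

theorem lt_hv {t j : ℕ} (ht : t ≤ 3 * m) (hj : j < a.n t) : 2 * jj (a.K t) (a.n1 t + j) ≤ 2 * hw kk - 1 := by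
  have := a.ran ht hj
  omega

theorem lt_hw {t j : ℕ} (ht : t ≤ 3 * m) (hj : j < a.n t) :
    (if alg (a.K t) (a.n1 t + j) then 2 * jj (a.K t) (a.n1 t + j) - 1 else 2 * jj (a.K t) (a.n1 t + j) + 1) ≤
      2 * hw kk - 1 := by
  have := a.ran ht hj
  split_ifs <;> omega

include hk0 hk1 hen hcs

theorem v_inj {t t' j j' : ℕ} (ht : t ≤ 3 * m) (ht' : t' ≤ 3 * m) (hj : j < a.n t) (hj' : j' < a.n t')
    (h : (a.K t).v j = (a.K t').v j') : t = t' ∧ j = j' := by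
  have hc : cs (a.v0 t) = cs (a.v0 t') := by rw [← a.cs_v hcs t j, ← a.cs_v hcs t' j', h]
  rw [a.v_eq ht hj, a.v_eq ht' hj'] at h
  obtain ⟨h1, h2, -⟩ := a.pos_eq hk0 hk1 hen ht ht' hj hj' hc (a.lt_hv ht hj) (a.lt_hv ht' hj') h
  exact ⟨h1, h2⟩

theorem w_inj {t t' j j' : ℕ} (ht : t ≤ 3 * m) (ht' : t' ≤ 3 * m) (hj : j < a.n t) (hj' : j' < a.n t')
    (h : (a.K t).w j = (a.K t').w j') : t = t' ∧ j = j' := by
  have hc : cs (a.v0 t) = cs (a.v0 t') := by rw [← a.cs_w hcs t j, ← a.cs_w hcs t' j', h]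
  rw [a.w_eq ht hj, a.w_eq ht' hj'] at h
  obtain ⟨h1, h2, -⟩ := a.pos_eq hk0 hk1 hen ht ht' hj hj' hc (a.lt_hw ht hj) (a.lt_hw ht' hj') h
  exact ⟨h1, h2⟩

theorem v_ne_w {t t' j j' : ℕ} (ht : t ≤ 3 * m) (ht' : t' ≤ 3 * m) (hj : j < a.n t) (hj' : j' < a.n t') :
    (a.K t).v j ≠ (a.K t').w j' := by
  intro h
  have hc : cs (a.v0 t) = cs (a.v0 t') := by rw [← a.cs_v hcs t j, ← a.cs_w hcs t' j', h]
  rw [a.v_eq ht hj, a.w_eq ht' hj'] at h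
  obtain ⟨-, -, h3⟩ := a.pos_eq hk0 hk1 hen ht ht' hj hj' hc (a.lt_hv ht hj) (a.lt_hw ht' hj') h
  have h4 := a.ran ht' hj'
  split_ifs at h3 <;> omega

omit hcs

theorem mt_v {t j : ℕ} (ht : t ≤ 3 * m) (hj : j < a.n t) : g.mt c ((a.K t).v j) = .t := by
  have h1 := a.ran ht hj
  rw [a.v_eq ht hj]
  exact mt_Z (hi := hi) H hk0 hk1 _ (a.blk_le hen ht hj) _ (by omega) (by rw [a.h_ct]; omega)

theorem mt_w {t j : ℕ} (ht : t ≤ 3 * m) (hj : j + 1 < a.n t) : g.mt c ((a.K t).w j) = .t := by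
  have h1 := a.ran' ht hj
  rw [a.w_eq ht (by omega)]
  exact mt_Z (hi := hi) H hk0 hk1 _ (a.blk_le hen ht (by omega)) _ (by split_ifs <;> omega)
    (by rw [a.h_ct]; split_ifs <;> omega)

/-- THE THREAD. -/
noncomputable def thd (hcs : ∀ x i, cs (x * B.q (l i)) = cs x) (hm : 0 < m) (φ : B.L)
    (hφ : B.q φ = ((a.K (3 * m - 1)).w (a.n (3 * m - 1) - 1))⁻¹ * a.v0 0) (hφl : ∀ i, φ ≠ l i) :
    Thd (g.F c hl hi hii) (Fin (3 * m)) :=
  Thd.fin (3 * m) (by omega) (l .t) a.n (fun t j => (a.K t).v j) (fun t j => (a.K t).w j) (fun t j => l (a.lb t j)) a.th φ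
    (fun _ _ => Nat.succ_pos _) (fun t _ j _ => a.w_v t j) (fun t _ j _ => a.v_s t j)
    (fun t ht => a.next t ht.le) (by rw [hφ, mul_inv_cancel_left]; rfl)
    (fun t ht j hj t' ht' j' hj' h => a.v_inj hk0 hk1 hen hcs ht.le ht'.le hj hj' h)
    (fun t ht j hj t' ht' j' hj' h => a.w_inj hk0 hk1 hen hcs ht.le ht'.le hj hj' h)
    (fun t ht j hj t' ht' j' hj' => a.v_ne_w hk0 hk1 hen hcs ht.le ht'.le hj hj')
    (fun t ht j hj => (mem_F' hl hii _ _).2 (by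
      rw [a.mt_v hk0 hk1 hen ht.le hj]
      unfold lb
      split_ifs <;> simp))
    (fun t ht j hj h => (mem_F' hl hii _ _).1 h (a.mt_w hk0 hk1 hen ht.le hj).symm)
    (fun t ht h => by
      obtain ⟨i, hi'⟩ := F_range hl hii h
      exact a.thl t (by omega) i hi')
    (fun h => by
      obtain ⟨i, hi'⟩ := F_range hl hii h
      exact hφl i hi')

end thread

end Vts

end

end Pool.Agent.Lib.MP_688fd0_co.SQ5.H85
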